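import Pool.Agent.Helper52.AT.Iter
import Pool.Agent.Helper60.AT.LOC
import Pool.Agent.Helper44.AT.TAN

/-!
# The theorem in affine coordinates at the limit point
-/

set_option autoImplicit false

namespace Pool.Agent.Helper52.AT

open Filter Topology IsLocalRing MvPolynomial

theorem affine_main {σ : Type} [Fintype σ] (y : ℕ → σ → ℂ) (ρ : ℝ) (hρ0 : 0 < ρ) (hρ1 : ρ < 1)
    (hy : ∃ C : ℝ, ∀ᶠ n in atTop, ∀ i, ‖y n i‖ ≤ C * ρ ^ n)
    (P : σ → MvPolynomial σ ℂ) (Q : MvPolynomial σ ℂ) (hQ : eval 0 Q ≠ 0)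
    (hP : ∀ i, eval 0 (P i) = 0)
    (hstep : ∀ᶠ n in atTop, ∀ i, eval (y n) Q * y (n + 1) i = eval (y n) (P i))
    (t U W : MvPolynomial σ ℂ) (ht : eval 0 t = 0) (hW : eval 0 W ≠ 0)
    (htt : ∀ᶠ n in atTop, eval (y n) W * eval (y (n + 1)) t = eval (y n) U * eval (y n) t ^ 2)
    (hunr : ∀ h ∈ Tan y, ∑ j, h j * eval 0 (pderiv j t) = 0 →
      (∀ i, ∑ j, h j * eval 0 (pderiv j (P i)) = 0) → h = 0)
    {M : ℕ} (hM : 1 ≤ M)
    (hmult : ∀ μ ∈ Submonoid.closure {x : ℂ | ∃ h ∈ Tan y, h ≠ 0 ∧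
        ∀ i, ∑ j, h j * eval 0 (pderiv j (P i)) = x * eval 0 Q * h i},
      ∀ ν ∈ Submonoid.closure {x : ℂ | ∃ h ∈ Tan y, h ≠ 0 ∧
        ∀ i, ∑ j, h j * eval 0 (pderiv j (P i)) = x * eval 0 Q * h i},
      ‖μ‖ = ‖ν‖ → μ ^ M = ν ^ M)
    (g : MvPolynomial σ ℂ) (r : ℕ) :
    (∀ᶠ n in atTop, eval (y (M * n + r)) g = 0) ∨
      (∀ᶠ n in atTop, eval (y (M * n + r)) g ≠ 0) := by
  obtain ⟨O, iC, iL, iN, iA, S, ι, hι, hev, hzero, hfrac, hT⟩ :=
    exists_sys y ρ hρ0 hρ1 hy P Q hQ hP hstep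
  obtain ⟨L, hL, hL2⟩ := tan_L y P Q hQ hP S ι hι hev hzero hfrac hT
  have hU := tan_U y P Q hQ hP S ι hι hev hzero hfrac hT t ht hunr
  have htm : ι t ∈ maximalIdeal O := (hι t).2 ht
  -- `W` is a unit
  have hWu : IsUnit (ι W) := by
    by_contra hcon
    exact hW ((hι W).1 ((IsLocalRing.mem_maximalIdeal _).2 hcon))
  have hrel : ι W * S.T (ι t) = ι U * ι t ^ 2 := by
    rw [← sub_eq_zero]
    apply hzero
    filter_upwards [S.sub (ι W * S.T (ι t)) (ι U * ι t ^ 2), S.mul (ι W) (S.T (ι t)),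
      S.mul (ι U) (ι t ^ 2), S.pow (ι t) 2, S.shift (ι t), hev W, hev U, hev t,
      (tendsto_add_atTop_nat 1).eventually (hev t), htt] with n h1 h2 h3 h4 h5 h6 h7 h8 h9 h10
    rw [h1, h2, h3, h4, h5, h6, h7, h8, h9, h10, sub_self]
  have htT : S.T (ι t) ∈ Ideal.span {ι t ^ 2} := by
    obtain ⟨w, hw⟩ := hWu.exists_left_inv
    refine Ideal.mem_span_singleton'.2 ⟨w * ι U, ?_⟩
    calc w * ι U * ι t ^ 2 = w * (ι U * ι t ^ 2) := by ring
      _ = w * (ι W * S.T (ι t)) := by rw [hrel]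
      _ = (w * ι W) * S.T (ι t) := by ring
      _ = S.T (ι t) := by rw [hw, one_mul]
  have hsub : Submonoid.closure {x | x ∈ L} ≤ Submonoid.closure {x : ℂ | ∃ h ∈ Tan y, h ≠ 0 ∧
        ∀ i, ∑ j, h j * eval 0 (pderiv j (P i)) = x * eval 0 Q * h i} :=
    Submonoid.closure_mono fun x hx => hL x hx
  have hΛ : ∀ μ ∈ Submonoid.closure {x | x ∈ L}, ∀ ν ∈ Submonoid.closure {x | x ∈ L},
      ‖μ‖ = ‖ν‖ → μ ^ M = ν ^ M := fun μ hμ ν hν => hmult μ (hsub hμ) ν (hsub hν)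
  have hcl := tendsto_class hM r
  rcases S.main_classes L hL2 hM hΛ htm htT hU (ι g) r with h | h
  · left
    filter_upwards [h, hcl.eventually (hev g)] with n h1 h2
    rw [← h2, h1]
  · right
    filter_upwards [h, hcl.eventually (hev g)] with n h1 h2
    rw [← h2]
    exact h1

/-! ## Translations -/

/-- the polynomial `g (X + c)` -/
noncomputable def tr {σ : Type} (c : σ → ℂ) (g : MvPolynomial σ ℂ) : MvPolynomial σ ℂ :=
  aeval (fun i => X i + C (c i)) g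

theorem eval_tr {σ : Type} (c v : σ → ℂ) (g : MvPolynomial σ ℂ) :
    eval v (tr c g) = eval (v + c) g := by
  unfold tr
  induction g using MvPolynomial.induction_on with
  | C a => simp
  | add p q hp hq => simp only [map_add, hp, hq]
  | mul_X p i hp => simp only [map_mul, hp, aeval_X, map_add, eval_X, eval_C, Pi.add_apply]

theorem pderiv_tr {σ : Type} (c : σ → ℂ) (j : σ) (g : MvPolynomial σ ℂ) :
    pderiv j (tr c g) = tr c (pderiv j g) := by
  classical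
  unfold tr
  induction g using MvPolynomial.induction_on with
  | C a => simp
  | add p q hp hq => simp only [map_add, hp, hq]
  | mul_X p i hp =>
    simp only [map_mul, aeval_X, Derivation.leibniz, map_add, pderiv_X, pderiv_C, hp,
      smul_eq_mul, add_zero]
    congr 1
    by_cases h : i = j
    · subst h; simp
    · simp [Pi.single_eq_of_ne h]

end Pool.Agent.Helper52.AT
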