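import Mathlib

/-!
# Orbits attracted by a point (MP_295d38_ag): definitions

Sequences of complex numbers of exponential and superexponential size, and the abstract setting:
a local ring `O` with an endomorphism `T` and an evaluation `e` of its elements along an orbit.
-/

set_option autoImplicit false

namespace Pool.Agent.Helper52.AT

open Filter Topology IsLocalRing

/-- superexponentially small -/
def SE (s : ℕ → ℂ) : Prop := ∀ ε : ℝ, 0 < ε → ∀ᶠ n in atTop, ‖s n‖ ≤ ε ^ n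

/-- bounded below by an exponential function -/
def LB (s : ℕ → ℂ) : Prop := ∃ c : ℝ, 0 < c ∧ ∀ᶠ n in atTop, c ^ n ≤ ‖s n‖

/-- `s n = O(δ ^ n)` -/
def BO (δ : ℝ) (s : ℕ → ℂ) : Prop := ∃ C : ℝ, ∀ᶠ n in atTop, ‖s n‖ ≤ C * δ ^ n

/-- `s n ∼ c * (n choose j) * μ ^ n`, with `c ≠ 0` and `μ ≠ 0` -/
def Reg (μ : ℂ) (j : ℕ) (c : ℂ) (s : ℕ → ℂ) : Prop :=
  μ ≠ 0 ∧ c ≠ 0 ∧ Tendsto (fun n => s n / ((n.choose j : ℂ) * μ ^ n)) atTop (𝓝 c)

/-- `(σ - μ_r) ... (σ - μ_1) s` for `L = [μ_1, ..., μ_r]`, `σ` the shift of sequences -/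
def appS (L : List ℂ) (s : ℕ → ℂ) : ℕ → ℂ :=
  L.foldl (fun s μ => fun n => s (n + 1) - μ * s n) s

/-- `(T - μ_r) ... (T - μ_1) a` for `L = [μ_1, ..., μ_r]` -/
def appT {O : Type*} [CommRing O] [Algebra ℂ O] (T : O →ₐ[ℂ] O) (L : List ℂ) (a : O) : O :=
  L.foldl (fun a μ => T a - μ • a) a

/-- A local `ℂ`-algebra `O` with residue field `ℂ`, a local endomorphism `T`, and an evaluation `e`
of the elements of `O` along an orbit: `e a n` is the value of the function `a` at the `n`-th point,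
and `T a` is the composition of `a` with the dynamical system. -/
structure Sys (O : Type) [CommRing O] [IsLocalRing O] [Algebra ℂ O] where
  T : O →ₐ[ℂ] O
  e : O → ℕ → ℂ
  ρ : ℝ
  ρ_pos : 0 < ρ
  ρ_lt : ρ < 1
  T_mem : ∀ a ∈ maximalIdeal O, T a ∈ maximalIdeal O
  res : ∀ a, ∃ c : ℂ, a - algebraMap ℂ O c ∈ maximalIdeal O
  add : ∀ a b, ∀ᶠ n in atTop, e (a + b) n = e a n + e b n
  mul : ∀ a b, ∀ᶠ n in atTop, e (a * b) n = e a n * e b n
  alg : ∀ c : ℂ, ∀ᶠ n in atTop, e (algebraMap ℂ O c) n = c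
  shift : ∀ a, ∀ᶠ n in atTop, e (T a) n = e a (n + 1)
  small : ∀ a ∈ maximalIdeal O, BO ρ (e a)

end Pool.Agent.Helper52.AT
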