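import Pool.Agent.Helper52.AT.Main2
import Pool.Agent.Helper34.AT.POW

/-!
# Residue classes: the dichotomy along arithmetic progressions
-/

set_option autoImplicit false

namespace Pool.Agent.Helper52.AT

open Filter Topology IsLocalRing

theorem tendsto_class {M : ℕ} (hM : 1 ≤ M) (r : ℕ) : Tendsto (fun n => M * n + r) atTop atTop := by
  refine tendsto_atTop_mono (fun n => ?_) tendsto_id
  have : n ≤ M * n := Nat.le_mul_of_pos_left n hM
  simp only [id]
  omega

namespace Sys

variable {O : Type} [CommRing O] [IsLocalRing O] [Algebra ℂ O] (S : Sys O)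

theorem T_pow_mem (M : ℕ) : ∀ a ∈ maximalIdeal O, (S.T ^ M) a ∈ maximalIdeal O := by
  induction M with
  | zero => intro a ha; simpa using ha
  | succ M ih =>
    intro a ha
    rw [pow_succ', AlgHom.mul_apply]
    exact S.T_mem _ (ih a ha)

theorem shift_pow (M : ℕ) (a : O) : ∀ᶠ n in atTop, S.e ((S.T ^ M) a) n = S.e a (n + M) := by
  induction M generalizing a with
  | zero => exact Eventually.of_forall fun n => by simp
  | succ M ih =>
    rw [pow_succ, AlgHom.mul_apply]
    filter_upwards [ih (S.T a), (tendsto_add_atTop_nat M).eventually (S.shift a)] with n h1 h2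
    rw [h1, h2]
    rfl

/-- the system of the `M`-th iterate, along the progression `M n + r` -/
def iter {M : ℕ} (hM : 1 ≤ M) (r : ℕ) : Sys O where
  T := S.T ^ M
  e := fun a n => S.e a (M * n + r)
  ρ := S.ρ ^ M
  ρ_pos := pow_pos S.ρ_pos M
  ρ_lt := pow_lt_one₀ S.ρ_pos.le S.ρ_lt (by omega)
  T_mem := S.T_pow_mem M
  res := S.res
  add := fun a b => (tendsto_class hM r).eventually (S.add a b)
  mul := fun a b => (tendsto_class hM r).eventually (S.mul a b)
  alg := fun c => (tendsto_class hM r).eventually (S.alg c)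
  shift := by
    intro a
    filter_upwards [(tendsto_class hM r).eventually (S.shift_pow M a)] with n hn
    rw [hn]
    congr 1
    ring
  small := by
    intro a ha
    obtain ⟨C, hC⟩ := S.small a ha
    refine ⟨C * S.ρ ^ r, ?_⟩
    filter_upwards [(tendsto_class hM r).eventually hC] with n hn
    rw [← pow_mul, mul_assoc, ← pow_add, add_comm r]
    exact hn

theorem closure_pow (L : List ℂ) (M : ℕ) :
    ∀ μ ∈ Submonoid.closure {x | x ∈ L.map (fun μ => μ ^ M)},
      ∃ ν ∈ Submonoid.closure {x | x ∈ L}, μ = ν ^ M := by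
  intro μ hμ
  induction hμ using Submonoid.closure_induction with
  | mem x hx =>
    obtain ⟨y, hy, rfl⟩ := List.mem_map.1 hx
    exact ⟨y, Submonoid.subset_closure hy, rfl⟩
  | one => exact ⟨1, one_mem _, by simp⟩
  | mul x y _ _ hx hy =>
    obtain ⟨u, hu, rfl⟩ := hx
    obtain ⟨v, hv, rfl⟩ := hy
    exact ⟨u * v, mul_mem hu hv, (mul_pow u v M).symm⟩

/-- The dichotomy along the classes modulo `M`. -/
theorem main_classes [IsNoetherianRing O] (L₁ : List ℂ)
    (h₁ : ∀ a ∈ maximalIdeal O, appT S.T L₁ a ∈ maximalIdeal O ^ 2) {M : ℕ} (hM : 1 ≤ M)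
    (hΛ : ∀ μ ∈ Submonoid.closure {x | x ∈ L₁}, ∀ ν ∈ Submonoid.closure {x | x ∈ L₁},
      ‖μ‖ = ‖ν‖ → μ ^ M = ν ^ M) {t : O}
    (htm : t ∈ maximalIdeal O) (htT : S.T t ∈ Ideal.span {t ^ 2})
    (hU : maximalIdeal O ≤
      Ideal.span (S.T '' (maximalIdeal O : Set O)) ⊔ Ideal.span {t} ⊔ maximalIdeal O ^ 2)
    (a : O) (r : ℕ) :
    (∀ᶠ n in atTop, S.e a (M * n + r) = 0) ∨ (∀ᶠ n in atTop, S.e a (M * n + r) ≠ 0) := by
  have htT1 : S.T t ∈ Ideal.span {t} := by
    refine Ideal.span_singleton_le_span_singleton.2 ?_ htT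
    exact dvd_pow_self t two_ne_zero
  have hTspan : ∀ x ∈ Ideal.span {t ^ 2}, S.T x ∈ Ideal.span {t ^ 2} := by
    intro x hx
    obtain ⟨c, rfl⟩ := Ideal.mem_span_singleton'.1 hx
    rw [map_mul, map_pow]
    refine Ideal.mul_mem_left _ _ ?_
    obtain ⟨c', hc'⟩ := Ideal.mem_span_singleton'.1 htT
    rw [← hc']
    exact Ideal.mem_span_singleton'.2 ⟨c' ^ 2 * t ^ 2, by ring⟩
  have htM : ∀ k, 1 ≤ k → (S.T ^ k) t ∈ Ideal.span {t ^ 2} := by
    intro k hk
    induction k, hk using Nat.le_induction with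
    | base => simpa using htT
    | succ k hk ih =>
      rw [pow_succ' S.T k, AlgHom.mul_apply]
      exact hTspan _ ih
  have hK : maximalIdeal O ≤ Ideal.span (S.T '' (maximalIdeal O : Set O)) ⊔ Ideal.span {t} :=
    krull_T S.T S.T_mem S.res t htm htT1 hU (maximalIdeal O) S.T_mem
  have hUM : ∀ k, maximalIdeal O ≤
      Ideal.span (⇑(S.T ^ k) '' (maximalIdeal O : Set O)) ⊔ Ideal.span {t} := by
    intro k
    induction k with
    | zero =>
      intro x hx
      refine Ideal.mem_sup_left (Ideal.subset_span ⟨x, hx, by simp⟩)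
    | succ k ih =>
      refine hK.trans (sup_le ?_ le_sup_right)
      rw [Ideal.span_le]
      rintro _ ⟨x, hx, rfl⟩
      have h1 := ih hx
      have h2 : Ideal.map (S.T : O →+* O)
          (Ideal.span (⇑(S.T ^ k) '' (maximalIdeal O : Set O)) ⊔ Ideal.span {t}) ≤
          Ideal.span (⇑(S.T ^ (k + 1)) '' (maximalIdeal O : Set O)) ⊔ Ideal.span {t} := by
        rw [Ideal.map_sup, Ideal.map_span, Ideal.map_span]
        refine sup_le_sup ?_ ?_
        · refine Ideal.span_mono ?_
          rintro _ ⟨_, ⟨y, hy, rfl⟩, rfl⟩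
          refine ⟨y, hy, ?_⟩
          rw [pow_succ' S.T k, AlgHom.mul_apply]
          rfl
        · rw [Ideal.span_le]
          rintro _ ⟨_, rfl, rfl⟩
          exact htT1
      exact h2 (Ideal.mem_map_of_mem (S.T : O →+* O) h1)
  have hm2 : ∀ a ∈ maximalIdeal O ^ 2, S.T a ∈ maximalIdeal O ^ 2 := by
    intro a ha
    have h1 : Ideal.map (S.T : O →+* O) (maximalIdeal O) ≤ maximalIdeal O := by
      rw [Ideal.map_le_iff_le_comap]
      exact fun x hx => S.T_mem x hx
    have h2 : Ideal.map (S.T : O →+* O) (maximalIdeal O ^ 2) ≤ maximalIdeal O ^ 2 := by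
      rw [Ideal.map_pow]
      exact Ideal.pow_right_mono h1 2
    exact h2 (Ideal.mem_map_of_mem (S.T : O →+* O) ha)
  refine (S.iter hM r).main (L₁.map (fun μ => μ ^ M)) ?_ ?_ htm (htM M hM) ?_ a
  · intro x hx
    exact appT_pow S.T (maximalIdeal O ^ 2) hm2 M L₁ x (h₁ x hx)
  · intro μ hμ ν hν hn
    obtain ⟨μ', hμ', rfl⟩ := closure_pow L₁ M μ hμ
    obtain ⟨ν', hν', rfl⟩ := closure_pow L₁ M ν hν
    refine hΛ μ' hμ' ν' hν' ?_
    rw [norm_pow, norm_pow] at hn
    exact (pow_left_inj₀ (norm_nonneg _) (norm_nonneg _) (by omega)).1 hn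
  · exact (hUM M).trans le_sup_left

end Sys

end Pool.Agent.Helper52.AT
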