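import Pool.Agent.Helper52.AT.SEQe
import Pool.Agent.Helper94.AT.KILL

/-!
# The dichotomy for functions evaluated along an attracted orbit
-/

set_option autoImplicit false

namespace Pool.Agent.Helper52.AT

open Filter Topology IsLocalRing

theorem appS_congr : ∀ (L : List ℂ) {s s' : ℕ → ℂ}, (∀ᶠ n in atTop, s n = s' n) →
    ∀ᶠ n in atTop, appS L s n = appS L s' n := by
  intro L
  induction L with
  | nil => intro s s' h; exact h
  | cons μ L ih =>
    intro s s' h
    refine ih ?_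
    have h1 : ∀ᶠ n in atTop, s (n + 1) = s' (n + 1) := (tendsto_add_atTop_nat 1).eventually h
    filter_upwards [h, h1] with n h2 h3
    rw [h2, h3]

theorem BO.congr {δ : ℝ} {s s' : ℕ → ℂ} (h : ∀ᶠ n in atTop, s n = s' n) (hs : BO δ s) :
    BO δ s' := by
  obtain ⟨C, hC⟩ := hs
  refine ⟨C, ?_⟩
  filter_upwards [h, hC] with n h1 h2
  rwa [← h1]

theorem SE.tendsto {s : ℕ → ℂ} (h : SE s) : Tendsto s atTop (𝓝 0) := by
  rw [tendsto_zero_iff_norm_tendsto_zero]
  have h1 := tendsto_pow_atTop_nhds_zero_of_lt_one (by norm_num : (0 : ℝ) ≤ 1 / 2) (by norm_num)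
  exact squeeze_zero' (Eventually.of_forall fun n => norm_nonneg _) (h (1 / 2) (by norm_num)) h1

theorem SE.not_lb {s : ℕ → ℂ} (h : SE s) (h' : LB s) : False := by
  obtain ⟨c, hc, h1⟩ := h'
  obtain ⟨n, h2, h3, h4⟩ := (h1.and ((h (c / 2) (by positivity)).and (eventually_gt_atTop 0))).exists
  have : (c / 2) ^ n < c ^ n := pow_lt_pow_left₀ (by linarith) (by positivity) (by omega)
  linarith

/-- A nonnegative sequence with `H n ≤ C (H (n + 1)) + b n`, superexponentially small, where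
`b (n + 1) ≤ b n / (2 C)`. -/
theorem backward {H b : ℕ → ℝ} {C : ℝ} (hC : 1 ≤ C) (hH0 : ∀ n, 0 ≤ H n) (hb0 : ∀ n, 0 ≤ b n)
    (hH : ∀ ε > 0, ∀ᶠ n in atTop, H n ≤ ε ^ n)
    (h1 : ∀ᶠ n in atTop, H n ≤ C * H (n + 1) + C * b n)
    (h2 : ∀ᶠ n in atTop, b (n + 1) ≤ b n / (2 * C)) :
    ∀ᶠ n in atTop, H n ≤ 2 * C * b n := by
  obtain ⟨n₀, h3⟩ := eventually_atTop.1 (h1.and h2)
  filter_upwards [eventually_ge_atTop n₀] with n hn
  have hb : ∀ j, b (n + j) ≤ b n / (2 * C) ^ j := by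
    intro j
    induction j with
    | zero => simp
    | succ j ih =>
      have h4 := (h3 (n + j) (by omega)).2
      rw [← add_assoc]
      refine h4.trans ?_
      rw [pow_succ, ← div_div (b n)]
      exact div_le_div_of_nonneg_right ih (by positivity)
  have key : ∀ k, H n ≤ C ^ k * H (n + k) + (∑ j ∈ Finset.range k, (1 / 2) ^ j) * (C * b n) := by
    intro k
    induction k with
    | zero => simp
    | succ k ih =>
      have h4 := (h3 (n + k) (by omega)).1
      rw [Finset.sum_range_succ, add_mul, ← add_assoc]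
      have h5 : C ^ k * (C * b (n + k)) ≤ (1 / 2) ^ k * (C * b n) := by
        have h6 := hb k
        calc C ^ k * (C * b (n + k)) ≤ C ^ k * (C * (b n / (2 * C) ^ k)) := by gcongr
          _ = (1 / 2) ^ k * (C * b n) := by
            rw [mul_pow]
            field_simp
            rw [mul_assoc, ← mul_pow]
            norm_num
      calc H n ≤ C ^ k * H (n + k) + (∑ j ∈ Finset.range k, (1 / 2) ^ j) * (C * b n) := ih
        _ ≤ C ^ k * (C * H (n + k + 1) + C * b (n + k)) +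
            (∑ j ∈ Finset.range k, (1 / 2) ^ j) * (C * b n) := by gcongr
        _ = C ^ (k + 1) * H (n + k + 1) + C ^ k * (C * b (n + k)) +
            (∑ j ∈ Finset.range k, (1 / 2) ^ j) * (C * b n) := by ring
        _ ≤ C ^ (k + 1) * H (n + (k + 1)) + (1 / 2) ^ k * (C * b n) +
            (∑ j ∈ Finset.range k, (1 / 2) ^ j) * (C * b n) := by
            rw [← add_assoc]
            gcongr
        _ = _ := by rw [← add_assoc]; ring
  have hsum : ∀ k, ∑ j ∈ Finset.range k, ((1 : ℝ) / 2) ^ j ≤ 2 := by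
    intro k
    have := sum_geometric_two_le k
    simpa using this
  have hlim : Tendsto (fun k => C ^ k * H (n + k)) atTop (𝓝 0) := by
    have hC2 : 0 < 1 / (2 * C) := by positivity
    have h5 : ∀ᶠ k in atTop, H (n + k) ≤ (1 / (2 * C)) ^ (n + k) := by
      have h6 : Tendsto (fun k => n + k) atTop atTop := tendsto_atTop_mono (fun k => Nat.le_add_left k n) tendsto_id
      exact h6.eventually (hH _ hC2)
    have h6 : Tendsto (fun k : ℕ => ((1 : ℝ) / 2) ^ k) atTop (𝓝 0) :=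
      tendsto_pow_atTop_nhds_zero_of_lt_one (by norm_num) (by norm_num)
    refine squeeze_zero' (Eventually.of_forall fun k => mul_nonneg (by positivity) (hH0 _)) ?_ h6
    filter_upwards [h5] with k h7
    calc C ^ k * H (n + k) ≤ C ^ k * (1 / (2 * C)) ^ (n + k) := by gcongr
      _ ≤ C ^ k * (1 / (2 * C)) ^ k := by
        gcongr C ^ k * ?_
        refine pow_le_pow_of_le_one hC2.le ?_ (by omega)
        rw [div_le_one (by positivity)]
        linarith
      _ = (1 / 2) ^ k := by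
        rw [← mul_pow]
        congr 1
        field_simp
  have h5 : ∀ k, H n ≤ C ^ k * H (n + k) + 2 * (C * b n) := by
    intro k
    refine (key k).trans ?_
    have := hsum k
    have hnn : 0 ≤ C * b n := mul_nonneg (by linarith) (hb0 n)
    nlinarith
  have h6 : Tendsto (fun k => C ^ k * H (n + k) + 2 * (C * b n)) atTop (𝓝 (0 + 2 * (C * b n))) :=
    hlim.add_const _
  have h7 := ge_of_tendsto' h6 h5
  linarith

namespace Sys

variable {O : Type} [CommRing O] [IsLocalRing O] [Algebra ℂ O] (S : Sys O)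

theorem smul (c : ℂ) (a : O) : ∀ᶠ n in atTop, S.e (c • a) n = c * S.e a n := by
  filter_upwards [S.mul (algebraMap ℂ O c) a, S.alg c] with n h1 h2
  rw [Algebra.smul_def, h1, h2]

theorem sub (a b : O) : ∀ᶠ n in atTop, S.e (a - b) n = S.e a n - S.e b n := by
  filter_upwards [S.add a ((-1 : ℂ) • b), S.smul (-1) b] with n h1 h2
  have h3 : a - b = a + (-1 : ℂ) • b := by rw [neg_smul, one_smul, sub_eq_add_neg]
  rw [h3, h1, h2]
  ring

theorem zero' : ∀ᶠ n in atTop, S.e 0 n = 0 := by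
  have := S.alg 0
  rwa [map_zero] at this

theorem one' : ∀ᶠ n in atTop, S.e 1 n = 1 := by
  have := S.alg 1
  rwa [map_one] at this

theorem sum {ι : Type*} (s : Finset ι) (f : ι → O) :
    ∀ᶠ n in atTop, S.e (∑ i ∈ s, f i) n = ∑ i ∈ s, S.e (f i) n := by
  classical
  induction s using Finset.induction_on with
  | empty => simpa using S.zero'
  | insert i s hi ih =>
    filter_upwards [ih, S.add (f i) (∑ i ∈ s, f i)] with n h1 h2
    rw [Finset.sum_insert hi, Finset.sum_insert hi, h2, h1]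

theorem pow (a : O) (k : ℕ) : ∀ᶠ n in atTop, S.e (a ^ k) n = S.e a n ^ k := by
  induction k with
  | zero => simpa using S.one'
  | succ k ih =>
    filter_upwards [ih, S.mul (a ^ k) a] with n h1 h2
    rw [pow_succ, pow_succ, h2, h1]

theorem bdd (a : O) : ∃ C : ℝ, 0 < C ∧ ∀ᶠ n in atTop, ‖S.e a n‖ ≤ C := by
  obtain ⟨c, hc⟩ := S.res a
  obtain ⟨C, hC⟩ := S.small _ hc
  refine ⟨‖c‖ + |C| + 1, by positivity, ?_⟩
  filter_upwards [hC, S.add (algebraMap ℂ O c) (a - algebraMap ℂ O c), S.alg c] with n h1 h2 h3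
  have h4 : algebraMap ℂ O c + (a - algebraMap ℂ O c) = a := by ring
  rw [h4] at h2
  rw [h2, h3]
  have h5 : C * S.ρ ^ n ≤ |C| := by
    have h6 : S.ρ ^ n ≤ 1 := pow_le_one₀ S.ρ_pos.le S.ρ_lt.le
    have h7 : 0 ≤ S.ρ ^ n := pow_nonneg S.ρ_pos.le n
    calc C * S.ρ ^ n ≤ |C| * S.ρ ^ n := by gcongr; exact le_abs_self C
      _ ≤ |C| * 1 := by gcongr
      _ = |C| := mul_one _
  calc ‖c + S.e (a - algebraMap ℂ O c) n‖ ≤ ‖c‖ + ‖S.e (a - algebraMap ℂ O c) n‖ := norm_add_le _ _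
    _ ≤ ‖c‖ + |C| + 1 := by linarith

theorem app (L : List ℂ) : ∀ a : O, ∀ᶠ n in atTop, S.e (appT S.T L a) n = appS L (S.e a) n := by
  induction L with
  | nil => intro a; exact Eventually.of_forall fun n => rfl
  | cons μ L ih =>
    intro a
    have h1 := ih (S.T a - μ • a)
    have h2 : ∀ᶠ n in atTop, S.e (S.T a - μ • a) n = S.e a (n + 1) - μ * S.e a n := by
      filter_upwards [S.sub (S.T a) (μ • a), S.shift a, S.smul μ a] with n h3 h4 h5
      rw [h3, h4, h5]
    filter_upwards [h1, appS_congr L h2] with n h3 h4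
    exact h3.trans h4

theorem small_pow (k : ℕ) : ∀ a ∈ maximalIdeal O ^ k, BO (S.ρ ^ k) (S.e a) := by
  induction k with
  | zero =>
    intro a _
    obtain ⟨C, _, hC⟩ := S.bdd a
    exact ⟨C, by simpa using hC⟩
  | succ k ih =>
    intro a ha
    rw [pow_succ] at ha
    refine Submodule.mul_induction_on ha ?_ ?_
    · intro x hx y hy
      obtain ⟨C, hC⟩ := ih x hx
      obtain ⟨C', hC'⟩ := S.small y hy
      refine ⟨C * C', ?_⟩
      filter_upwards [hC, hC', S.mul x y] with n h1 h2 h3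
      rw [h3, norm_mul]
      calc ‖S.e x n‖ * ‖S.e y n‖ ≤ (C * (S.ρ ^ k) ^ n) * (C' * S.ρ ^ n) :=
            mul_le_mul h1 h2 (norm_nonneg _) ((norm_nonneg _).trans h1)
        _ = C * C' * (S.ρ ^ (k + 1)) ^ n := by rw [pow_succ, mul_pow]; ring
    · intro x y hx hy
      obtain ⟨C, hC⟩ := hx
      obtain ⟨C', hC'⟩ := hy
      refine ⟨C + C', ?_⟩
      filter_upwards [hC, hC', S.add x y] with n h1 h2 h3
      rw [h3, add_mul]
      exact (norm_add_le _ _).trans (add_le_add h1 h2)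

/-- The elements which are superexponentially small along the orbit. -/
def J : Ideal O where
  carrier := {a | SE (S.e a)}
  zero_mem' := by
    intro ε hε
    filter_upwards [S.zero'] with n h1
    rw [h1, norm_zero]
    positivity
  add_mem' := by
    intro a b ha hb ε hε
    filter_upwards [ha (ε / 2) (by positivity), hb (ε / 2) (by positivity), S.add a b,
      eventually_ge_atTop 1] with n h1 h2 h3 h4
    rw [h3]
    refine (norm_add_le _ _).trans ?_
    have h5 : (ε / 2) ^ n = ε ^ n * (1 / 2) ^ n := by rw [← mul_pow]; congr 1; ring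
    have h6 : ((1 : ℝ) / 2) ^ n ≤ 1 / 2 := by
      calc ((1 : ℝ) / 2) ^ n ≤ (1 / 2) ^ 1 := pow_le_pow_of_le_one (by norm_num) (by norm_num) h4
        _ = 1 / 2 := pow_one _
    have h7 : 0 < ε ^ n := by positivity
    rw [h5] at h1 h2
    nlinarith
  smul_mem' := by
    intro c a ha ε hε
    obtain ⟨C, hC0, hC⟩ := S.bdd c
    have h2 : ∀ᶠ n : ℕ in atTop, C < 2 ^ n :=
      (tendsto_pow_atTop_atTop_of_one_lt (by norm_num : (1 : ℝ) < 2)).eventually_gt_atTop C
    filter_upwards [ha (ε / 2) (by positivity), hC, S.mul c a, h2] with n h1 h3 h4 h5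
    rw [smul_eq_mul, h4, norm_mul]
    calc ‖S.e c n‖ * ‖S.e a n‖ ≤ 2 ^ n * (ε / 2) ^ n := by gcongr; linarith
      _ = ε ^ n := by rw [← mul_pow]; congr 1; ring

theorem mem_J {a : O} : a ∈ S.J ↔ SE (S.e a) := Iff.rfl

theorem T_mem_J {a : O} (ha : a ∈ S.J) : S.T a ∈ S.J := by
  intro ε hε
  have h1 := ha (min ε 1) (by positivity)
  filter_upwards [S.shift a, (tendsto_add_atTop_nat 1).eventually h1] with n h2 h3
  rw [h2]
  calc ‖S.e a (n + 1)‖ ≤ (min ε 1) ^ (n + 1) := h3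
    _ ≤ (min ε 1) ^ n := pow_le_pow_of_le_one (by positivity) (min_le_right _ _) (by omega)
    _ ≤ ε ^ n := by
      gcongr
      exact min_le_left _ _

theorem J_le [IsNoetherianRing O] : S.J ≤ maximalIdeal O := by
  intro a ha
  by_contra hcon
  have hu : IsUnit a := by
    by_contra h
    exact hcon ((IsLocalRing.mem_maximalIdeal a).2 h)
  have h1 : (1 : O) ∈ S.J := by
    obtain ⟨b, hb⟩ := hu.exists_left_inv
    rw [← hb]
    exact S.J.mul_mem_left b ha
  obtain ⟨n, h2, h3, h4⟩ := ((h1 (1 / 2) (by norm_num)).and (S.one'.and (eventually_gt_atTop 0))).exists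
  rw [h3, norm_one] at h2
  have : ((1 : ℝ) / 2) ^ n < 1 := pow_lt_one₀ (by norm_num) (by norm_num) (by omega)
  linarith

/-- Elements are superexponentially small or bounded below by an exponential. -/
theorem dich [IsNoetherianRing O] (L₁ : List ℂ)
    (h₁ : ∀ a ∈ maximalIdeal O, appT S.T L₁ a ∈ maximalIdeal O ^ 2)
    (hΛ : ∀ μ ∈ Submonoid.closure {x | x ∈ L₁}, ∀ ν ∈ Submonoid.closure {x | x ∈ L₁},
      ‖μ‖ = ‖ν‖ → μ = ν) (a : O) : SE (S.e a) ∨ LB (S.e a) := by
  refine seq_dichotomy S.ρ_pos S.ρ_lt (Λ := {μ | μ ∈ Submonoid.closure {x | x ∈ L₁}}) hΛ _ ?_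
  intro k
  obtain ⟨L, hL, h⟩ := kill_all S.T (maximalIdeal O) S.T_mem S.res L₁ h₁ k
  exact ⟨L, hL, (S.small_pow k _ (h a)).congr (S.app L a)⟩

/-- For finitely many generators of an ideal `I ≤ J` with `I ≤ (T I) O + (t)`. -/
theorem descent [IsNoetherianRing O] (I : Ideal O) (hI : I ≤ S.J) (t : O)
    (hIT : I ≤ Ideal.span (S.T '' (I : Set O)) ⊔ Ideal.span {t})
    (ht : ∀ ε > 0, ∀ᶠ n in atTop, ‖S.e t (n + 1)‖ ≤ ε * ‖S.e t n‖) :
    ∀ a ∈ I, ∃ C : ℝ, ∀ᶠ n in atTop, ‖S.e a n‖ ≤ C * ‖S.e t n‖ := by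
  classical
  obtain ⟨F, hF⟩ : I.FG := IsNoetherian.noetherian I
  -- generators of the image
  have hTspan : Ideal.span (S.T '' (I : Set O)) ≤ Ideal.span (S.T '' (F : Set O)) := by
    rw [Ideal.span_le]
    rintro _ ⟨x, hx, rfl⟩
    rw [← hF] at hx
    refine Submodule.span_induction (p := fun x _ => S.T x ∈ Ideal.span (S.T '' (F : Set O)))
      ?_ ?_ ?_ ?_ hx
    · intro y hy
      exact Ideal.subset_span ⟨y, hy, rfl⟩
    · rw [map_zero]; exact Ideal.zero_mem _
    · intro y z _ _ hy hz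
      rw [map_add]; exact Ideal.add_mem _ hy hz
    · intro c y _ hy
      rw [smul_eq_mul, map_mul]
      exact Ideal.mul_mem_left _ _ hy
  have hrep : ∀ x ∈ F, ∃ (b : O → O) (c : O), x = ∑ y ∈ F, b y * S.T y + c * t := by
    intro x hx
    have h1 : x ∈ I := by rw [← hF]; exact Submodule.subset_span hx
    obtain ⟨u, hu, v, hv, huv⟩ := Submodule.mem_sup.1 (hIT h1)
    obtain ⟨c, hc⟩ := Ideal.mem_span_singleton'.1 hv
    have h2 := hTspan hu
    have h3 : Ideal.span (S.T '' (F : Set O)) = Ideal.span (Set.range fun y : F => S.T y.1) := by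
      congr 1
      ext z
      constructor
      · rintro ⟨y, hy, rfl⟩; exact ⟨⟨y, hy⟩, rfl⟩
      · rintro ⟨⟨y, hy⟩, rfl⟩; exact ⟨y, hy, rfl⟩
    rw [h3] at h2
    obtain ⟨b, hb⟩ := (Ideal.mem_span_range_iff_exists_fun).1 h2
    refine ⟨fun y => if hy : y ∈ F then b ⟨y, hy⟩ else 0, c, ?_⟩
    rw [← huv, ← hb, hc]
    congr 1
    rw [← Finset.sum_coe_sort F]
    refine Finset.sum_congr rfl fun y _ => ?_
    simp
  choose! b c hbc using hrep
  -- bounds
  obtain ⟨C, hC1, hCb⟩ : ∃ C : ℝ, 1 ≤ C ∧ ∀ᶠ n in atTop, ∀ x ∈ F,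
      (∀ y ∈ F, ‖S.e (b x y) n‖ ≤ C) ∧ ‖S.e (c x) n‖ ≤ C := by
    have h1 : ∀ x ∈ F, ∀ y ∈ F, ∃ C : ℝ, ∀ᶠ n in atTop, ‖S.e (b x y) n‖ ≤ C :=
      fun x _ y _ => (S.bdd (b x y)).imp fun C h => h.2
    have h2 : ∀ x ∈ F, ∃ C : ℝ, ∀ᶠ n in atTop, ‖S.e (c x) n‖ ≤ C :=
      fun x _ => (S.bdd (c x)).imp fun C h => h.2
    choose! C1 hC1 using h1
    choose! C2 hC2 using h2
    refine ⟨1 + ∑ x ∈ F, ∑ y ∈ F, |C1 x y| + ∑ x ∈ F, |C2 x|, ?_, ?_⟩
    · have h3 : 0 ≤ ∑ x ∈ F, ∑ y ∈ F, |C1 x y| :=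
        Finset.sum_nonneg fun x _ => Finset.sum_nonneg fun y _ => abs_nonneg _
      have h4 : 0 ≤ ∑ x ∈ F, |C2 x| := Finset.sum_nonneg fun x _ => abs_nonneg _
      linarith
    · rw [Filter.eventually_all_finset]
      intro x hx
      rw [eventually_and, Filter.eventually_all_finset]
      have h3 : 0 ≤ ∑ x ∈ F, ∑ y ∈ F, |C1 x y| :=
        Finset.sum_nonneg fun x _ => Finset.sum_nonneg fun y _ => abs_nonneg _
      have h4 : 0 ≤ ∑ x ∈ F, |C2 x| := Finset.sum_nonneg fun x _ => abs_nonneg _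
      refine ⟨fun y hy => ?_, ?_⟩
      · filter_upwards [hC1 x hx y hy] with n hn
        have h5 : |C1 x y| ≤ ∑ y ∈ F, |C1 x y| :=
          Finset.single_le_sum (f := fun y => |C1 x y|) (fun y _ => abs_nonneg _) hy
        have h6 : ∑ y ∈ F, |C1 x y| ≤ ∑ x ∈ F, ∑ y ∈ F, |C1 x y| :=
          Finset.single_le_sum (f := fun x => ∑ y ∈ F, |C1 x y|)
            (fun x _ => Finset.sum_nonneg fun y _ => abs_nonneg _) hx
        have h7 := le_abs_self (C1 x y)
        linarith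
      · filter_upwards [hC2 x hx] with n hn
        have h5 : |C2 x| ≤ ∑ x ∈ F, |C2 x| :=
          Finset.single_le_sum (f := fun x => |C2 x|) (fun x _ => abs_nonneg _) hx
        have h7 := le_abs_self (C2 x)
        linarith
  set H : ℕ → ℝ := fun n => ∑ x ∈ F, ‖S.e x n‖ with hH
  have hH0 : ∀ n, 0 ≤ H n := fun n => Finset.sum_nonneg fun x _ => norm_nonneg _
  have hHse : ∀ ε > 0, ∀ᶠ n in atTop, H n ≤ ε ^ n := by
    intro ε hε
    have h1 : ∀ᶠ n in atTop, ∀ x ∈ F, ‖S.e x n‖ ≤ (ε / 2) ^ n := by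
      rw [Filter.eventually_all_finset]
      intro x hx
      have h2 : x ∈ S.J := hI (by rw [← hF]; exact Submodule.subset_span hx)
      exact h2 (ε / 2) (by positivity)
    have h2 : ∀ᶠ n : ℕ in atTop, (F.card : ℝ) < 2 ^ n :=
      (tendsto_pow_atTop_atTop_of_one_lt (by norm_num : (1 : ℝ) < 2)).eventually_gt_atTop _
    filter_upwards [h1, h2] with n h3 h4
    calc H n ≤ ∑ x ∈ F, (ε / 2) ^ n := Finset.sum_le_sum h3
      _ = F.card * (ε / 2) ^ n := by rw [Finset.sum_const, nsmul_eq_mul]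
      _ ≤ 2 ^ n * (ε / 2) ^ n := by gcongr
      _ = ε ^ n := by rw [← mul_pow]; congr 1; ring
  have hval : ∀ᶠ n in atTop, ∀ x ∈ F, S.e x n = ∑ y ∈ F, S.e (b x y) n * S.e y (n + 1) +
      S.e (c x) n * S.e t n := by
    rw [Filter.eventually_all_finset]
    intro x hx
    have h1 : ∀ᶠ n in atTop, ∀ y ∈ F, S.e (b x y * S.T y) n = S.e (b x y) n * S.e y (n + 1) := by
      rw [Filter.eventually_all_finset]
      intro y hy
      filter_upwards [S.mul (b x y) (S.T y), S.shift y] with n h2 h3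
      rw [h2, h3]
    filter_upwards [h1, S.sum F (fun y => b x y * S.T y), S.mul (c x) t,
      S.add (∑ y ∈ F, b x y * S.T y) (c x * t)] with n h2 h3 h4 h5
    conv_lhs => rw [hbc x hx]
    rw [h5, h3, h4, Finset.sum_congr rfl h2]
  set K : ℝ := C * (F.card + 1) with hK
  have hK1 : 1 ≤ K := by
    have : (0 : ℝ) ≤ F.card := by positivity
    nlinarith
  have hrecH : ∀ᶠ n in atTop, H n ≤ K * H (n + 1) + K * ‖S.e t n‖ := by
    filter_upwards [hval, hCb] with n h1 h2
    have h3 : ∀ x ∈ F, ‖S.e x n‖ ≤ C * H (n + 1) + C * ‖S.e t n‖ := by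
      intro x hx
      rw [h1 x hx]
      refine (norm_add_le _ _).trans (add_le_add ?_ ?_)
      · refine (norm_sum_le _ _).trans ?_
        rw [hH, Finset.mul_sum]
        refine Finset.sum_le_sum fun y hy => ?_
        rw [norm_mul]
        exact mul_le_mul_of_nonneg_right ((h2 x hx).1 y hy) (norm_nonneg _)
      · rw [norm_mul]
        exact mul_le_mul_of_nonneg_right (h2 x hx).2 (norm_nonneg _)
    calc H n ≤ ∑ x ∈ F, (C * H (n + 1) + C * ‖S.e t n‖) := Finset.sum_le_sum h3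
      _ = F.card * (C * H (n + 1) + C * ‖S.e t n‖) := by rw [Finset.sum_const, nsmul_eq_mul]
      _ ≤ (F.card + 1) * (C * H (n + 1) + C * ‖S.e t n‖) := by
          have := hH0 (n + 1)
          have := norm_nonneg (S.e t n)
          gcongr
          linarith
      _ = K * H (n + 1) + K * ‖S.e t n‖ := by rw [hK]; ring
  have hfin := backward hK1 hH0 (fun n => norm_nonneg (S.e t n)) hHse hrecH (by
    filter_upwards [ht (1 / (2 * K)) (by positivity)] with n hn
    calc ‖S.e t (n + 1)‖ ≤ 1 / (2 * K) * ‖S.e t n‖ := hn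
      _ = ‖S.e t n‖ / (2 * K) := by ring)
  -- all elements
  intro a ha
  rw [← hF] at ha
  refine Submodule.span_induction
    (p := fun a _ => ∃ C : ℝ, ∀ᶠ n in atTop, ‖S.e a n‖ ≤ C * ‖S.e t n‖) ?_ ?_ ?_ ?_ ha
  · intro x hx
    refine ⟨2 * K, ?_⟩
    filter_upwards [hfin] with n hn
    refine le_trans ?_ hn
    exact Finset.single_le_sum (f := fun x => ‖S.e x n‖) (fun x _ => norm_nonneg _) hx
  · refine ⟨0, ?_⟩
    filter_upwards [S.zero'] with n hn
    rw [hn]; simp
  · rintro x y _ _ ⟨C1, h1⟩ ⟨C2, h2⟩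
    refine ⟨C1 + C2, ?_⟩
    filter_upwards [h1, h2, S.add x y] with n h3 h4 h5
    rw [h5, add_mul]
    exact (norm_add_le _ _).trans (add_le_add h3 h4)
  · rintro r x _ ⟨C1, h1⟩
    obtain ⟨C2, hC2, h2⟩ := S.bdd r
    refine ⟨C2 * C1, ?_⟩
    filter_upwards [h1, h2, S.mul r x] with n h3 h4 h5
    rw [smul_eq_mul, h5, norm_mul, mul_assoc]
    exact mul_le_mul h4 h3 (norm_nonneg _) hC2.le

end Sys

end Pool.Agent.Helper52.AT
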