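import Pool.Agent.Helper52.AT.Main
import Pool.Agent.Helper97.AT.Krull

/-!
# The dichotomy for functions evaluated along an attracted orbit: the main argument
-/

set_option autoImplicit false

namespace Pool.Agent.Helper52.AT

open Filter Topology IsLocalRing

namespace Sys

variable {O : Type} [CommRing O] [IsLocalRing O] [Algebra ℂ O] (S : Sys O)

/-- The elements which are `O(|t| ^ A)` along the orbit. -/
def IA (t : O) (A : ℕ) : Ideal O where
  carrier := {a | ∃ C : ℝ, ∀ᶠ n in atTop, ‖S.e a n‖ ≤ C * ‖S.e t n‖ ^ A}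
  zero_mem' := by
    refine ⟨0, ?_⟩
    filter_upwards [S.zero'] with n hn
    rw [hn]; simp
  add_mem' := by
    rintro a b ⟨C1, h1⟩ ⟨C2, h2⟩
    refine ⟨C1 + C2, ?_⟩
    filter_upwards [h1, h2, S.add a b] with n h3 h4 h5
    rw [h5, add_mul]
    exact (norm_add_le _ _).trans (add_le_add h3 h4)
  smul_mem' := by
    rintro r a ⟨C1, h1⟩
    obtain ⟨C2, hC2, h2⟩ := S.bdd r
    refine ⟨C2 * C1, ?_⟩
    filter_upwards [h1, h2, S.mul r a] with n h3 h4 h5
    rw [smul_eq_mul, h5, norm_mul, mul_assoc]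
    exact mul_le_mul h4 h3 (norm_nonneg _) hC2.le

theorem mem_IA {t : O} {A : ℕ} {a : O} :
    a ∈ S.IA t A ↔ ∃ C : ℝ, ∀ᶠ n in atTop, ‖S.e a n‖ ≤ C * ‖S.e t n‖ ^ A := Iff.rfl

/-- the sequence of the values of `t` tends to `0` -/
theorem tendsto_zero {t : O} (ht : t ∈ maximalIdeal O) : Tendsto (S.e t) atTop (𝓝 0) := by
  rw [tendsto_zero_iff_norm_tendsto_zero]
  obtain ⟨C, hC⟩ := S.small t ht
  have h1 : Tendsto (fun n => C * S.ρ ^ n) atTop (𝓝 (C * 0)) :=
    (tendsto_pow_atTop_nhds_zero_of_lt_one S.ρ_pos.le S.ρ_lt).const_mul C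
  rw [mul_zero] at h1
  exact squeeze_zero' (Eventually.of_forall fun n => norm_nonneg _) hC h1

theorem IA_anti {t : O} (ht : t ∈ maximalIdeal O) {A B : ℕ} (h : A ≤ B) :
    S.IA t B ≤ S.IA t A := by
  rintro a ⟨C, hC⟩
  refine ⟨|C|, ?_⟩
  have h1 : ∀ᶠ n in atTop, ‖S.e t n‖ < 1 :=
    (S.tendsto_zero ht).norm.eventually (gt_mem_nhds (by simp))
  filter_upwards [hC, h1] with n h2 h3
  calc ‖S.e a n‖ ≤ C * ‖S.e t n‖ ^ B := h2
    _ ≤ |C| * ‖S.e t n‖ ^ B := by gcongr; exact le_abs_self C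
    _ ≤ |C| * ‖S.e t n‖ ^ A := by
      gcongr ?_ * ?_
      exact pow_le_pow_of_le_one (norm_nonneg _) h3.le h

section

variable [IsNoetherianRing O] {t : O}

/-- the recursion for the values of `t` -/
theorem t_rec (htT : S.T t ∈ Ideal.span {t ^ 2}) :
    ∃ C : ℝ, 0 < C ∧ ∀ᶠ n in atTop, ‖S.e t (n + 1)‖ ≤ C * ‖S.e t n‖ ^ 2 := by
  obtain ⟨w, hw⟩ := Ideal.mem_span_singleton'.1 htT
  obtain ⟨C, hC0, hC⟩ := S.bdd w
  refine ⟨C, hC0, ?_⟩
  filter_upwards [hC, S.shift t, S.mul w (t ^ 2), S.pow t 2] with n h1 h2 h3 h4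
  rw [← h2, ← hw, h3, h4, norm_mul, norm_pow]
  gcongr

theorem t_ratio (htm : t ∈ maximalIdeal O) (htT : S.T t ∈ Ideal.span {t ^ 2}) :
    ∀ ε > 0, ∀ᶠ n in atTop, ‖S.e t (n + 1)‖ ≤ ε * ‖S.e t n‖ := by
  intro ε hε
  obtain ⟨C, hC0, hC⟩ := S.t_rec htT
  have h1 : ∀ᶠ n in atTop, ‖S.e t n‖ < ε / C :=
    (S.tendsto_zero htm).norm.eventually (gt_mem_nhds (by rw [norm_zero]; positivity))
  filter_upwards [hC, h1] with n h2 h3
  calc ‖S.e t (n + 1)‖ ≤ C * ‖S.e t n‖ ^ 2 := h2
    _ = (C * ‖S.e t n‖) * ‖S.e t n‖ := by ring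
    _ ≤ ε * ‖S.e t n‖ := by
      gcongr
      rw [lt_div_iff₀ hC0] at h3
      linarith

theorem se_of_ratio {s : ℕ → ℂ} (h : ∀ ε > 0, ∀ᶠ n in atTop, ‖s (n + 1)‖ ≤ ε * ‖s n‖) : SE s := by
  intro ε hε
  obtain ⟨n₀, h1⟩ := eventually_atTop.1 (h (ε / 2) (by positivity))
  have h2 : ∀ k, ‖s (n₀ + k)‖ ≤ (ε / 2) ^ k * ‖s n₀‖ := by
    intro k
    induction k with
    | zero => simp
    | succ k ih =>
      calc ‖s (n₀ + (k + 1))‖ ≤ ε / 2 * ‖s (n₀ + k)‖ := h1 (n₀ + k) (by omega)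
        _ ≤ ε / 2 * ((ε / 2) ^ k * ‖s n₀‖) := by gcongr
        _ = _ := by ring
  have h3 : ∀ᶠ n : ℕ in atTop, ‖s n₀‖ / (ε / 2) ^ n₀ < 2 ^ n :=
    (tendsto_pow_atTop_atTop_of_one_lt (by norm_num : (1 : ℝ) < 2)).eventually_gt_atTop _
  filter_upwards [h3, eventually_ge_atTop n₀] with n h4 h5
  obtain ⟨k, rfl⟩ := Nat.exists_eq_add_of_le h5
  rw [div_lt_iff₀ (by positivity)] at h4
  calc ‖s (n₀ + k)‖ ≤ (ε / 2) ^ k * ‖s n₀‖ := h2 k
    _ ≤ (ε / 2) ^ k * (2 ^ (n₀ + k) * (ε / 2) ^ n₀) := by gcongr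
    _ = ((ε / 2) ^ (n₀ + k)) * 2 ^ (n₀ + k) := by rw [pow_add]; ring
    _ = ε ^ (n₀ + k) := by rw [← mul_pow]; congr 1; ring

theorem T_mem_IA (htT : S.T t ∈ Ideal.span {t ^ 2}) {A : ℕ} {a : O} (ha : a ∈ S.IA t A) :
    S.T a ∈ S.IA t (2 * A) := by
  obtain ⟨C, hC⟩ := ha
  obtain ⟨C', hC'0, hC'⟩ := S.t_rec htT
  refine ⟨|C| * C' ^ A, ?_⟩
  filter_upwards [S.shift a, (tendsto_add_atTop_nat 1).eventually hC, hC'] with n h1 h2 h3
  rw [h1]
  calc ‖S.e a (n + 1)‖ ≤ C * ‖S.e t (n + 1)‖ ^ A := h2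
    _ ≤ |C| * ‖S.e t (n + 1)‖ ^ A := by gcongr; exact le_abs_self C
    _ ≤ |C| * (C' * ‖S.e t n‖ ^ 2) ^ A := by gcongr
    _ = |C| * C' ^ A * ‖S.e t n‖ ^ (2 * A) := by rw [mul_pow, ← pow_mul]; ring

theorem J_le_IA (htm : t ∈ maximalIdeal O) (htT : S.T t ∈ Ideal.span {t ^ 2})
    (hU : maximalIdeal O ≤
      Ideal.span (S.T '' (maximalIdeal O : Set O)) ⊔ Ideal.span {t} ⊔ maximalIdeal O ^ 2) (A : ℕ) :
    S.J ≤ S.IA t A ⊔ Ideal.span {t} := by
  have htT1 : S.T t ∈ Ideal.span {t} := by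
    refine Ideal.span_singleton_le_span_singleton.2 ?_ htT
    exact dvd_pow_self t two_ne_zero
  have hK : S.J ≤ Ideal.span (S.T '' (S.J : Set O)) ⊔ Ideal.span {t} :=
    krull_T S.T S.T_mem S.res t htm htT1 hU S.J fun a ha => S.T_mem_J ha
  have h1 : S.J ≤ S.IA t 1 := by
    intro a ha
    obtain ⟨C, hC⟩ := S.descent S.J le_rfl t hK (S.t_ratio htm htT) a ha
    exact ⟨C, by simpa using hC⟩
  have h2 : ∀ k, S.J ≤ S.IA t (2 ^ k) ⊔ Ideal.span {t} := by
    intro k
    induction k with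
    | zero => exact (by simpa using h1 : S.J ≤ S.IA t (2 ^ 0)).trans le_sup_left
    | succ k ih =>
      refine hK.trans (sup_le ?_ le_sup_right)
      rw [Ideal.span_le]
      rintro _ ⟨x, hx, rfl⟩
      obtain ⟨u, hu, v, hv, rfl⟩ := Submodule.mem_sup.1 (ih hx)
      obtain ⟨c, rfl⟩ := Ideal.mem_span_singleton'.1 hv
      rw [map_add, map_mul]
      refine Ideal.add_mem _ ?_ ?_
      · have h3 := S.T_mem_IA htT hu
        rw [← pow_succ'] at h3
        exact Ideal.mem_sup_left h3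
      · exact Ideal.mem_sup_right (Ideal.mul_mem_left _ _ htT1)
  refine (h2 A).trans (sup_le_sup_right (S.IA_anti htm ?_) _)
  exact (Nat.lt_two_pow_self).le

/-- The main dichotomy. -/
theorem main (L₁ : List ℂ) (h₁ : ∀ a ∈ maximalIdeal O, appT S.T L₁ a ∈ maximalIdeal O ^ 2)
    (hΛ : ∀ μ ∈ Submonoid.closure {x | x ∈ L₁}, ∀ ν ∈ Submonoid.closure {x | x ∈ L₁},
      ‖μ‖ = ‖ν‖ → μ = ν)
    (htm : t ∈ maximalIdeal O) (htT : S.T t ∈ Ideal.span {t ^ 2})
    (hU : maximalIdeal O ≤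
      Ideal.span (S.T '' (maximalIdeal O : Set O)) ⊔ Ideal.span {t} ⊔ maximalIdeal O ^ 2)
    (a : O) : (∀ᶠ n in atTop, S.e a n = 0) ∨ (∀ᶠ n in atTop, S.e a n ≠ 0) := by
  have htT1 : S.T t ∈ Ideal.span {t} := by
    refine Ideal.span_singleton_le_span_singleton.2 ?_ htT
    exact dvd_pow_self t two_ne_zero
  have hlb : ∀ b : O, LB (S.e b) → ∀ᶠ n in atTop, S.e b n ≠ 0 := by
    rintro b ⟨c, hc, h⟩
    filter_upwards [h] with n hn h0
    rw [h0, norm_zero] at hn
    exact absurd hn (not_le.2 (pow_pos hc n))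
  have hratio := S.t_ratio htm htT
  have hrec := S.t_rec htT
  by_cases hz : ∃ᶠ n in atTop, S.e t n = 0
  · -- the hypersurface contains the orbit
    have ht0 : ∀ᶠ n in atTop, S.e t n = 0 := by
      obtain ⟨C, _, hC⟩ := hrec
      obtain ⟨n₀, h0⟩ := eventually_atTop.1 hC
      obtain ⟨n₁, hn₁, h1⟩ := (frequently_atTop.1 hz) n₀
      refine eventually_atTop.2 ⟨n₁, fun n hn => ?_⟩
      induction n, hn using Nat.le_induction with
      | base => exact h1
      | succ n hn ih =>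
        have h2 := h0 n (hn₁.trans hn)
        rw [ih] at h2
        rw [← norm_le_zero_iff]
        simpa using h2
    rcases S.dich L₁ h₁ hΛ a with h | h
    · left
      have hK : S.J ≤ Ideal.span (S.T '' (S.J : Set O)) ⊔ Ideal.span {t} :=
        krull_T S.T S.T_mem S.res t htm htT1 hU S.J fun a ha => S.T_mem_J ha
      obtain ⟨C, hC⟩ := S.descent S.J le_rfl t hK hratio a h
      filter_upwards [hC, ht0] with n h1 h2
      rw [h2, norm_zero, mul_zero] at h1
      exact norm_le_zero_iff.1 h1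
    · exact Or.inr (hlb a h)
  · have hz' : ∀ᶠ n in atTop, S.e t n ≠ 0 := not_frequently.1 hz
    have hse : SE (S.e t) := se_of_ratio hratio
    by_cases hall : ∀ A, a ∈ S.IA t A
    · left
      set I : Ideal O := ⨅ A, S.IA t A with hI
      have hmem : ∀ x, x ∈ I ↔ ∀ A, x ∈ S.IA t A := fun x => Submodule.mem_iInf _
      have hTI : ∀ x ∈ I, S.T x ∈ I := by
        intro x hx
        rw [hmem] at hx ⊢
        intro A
        exact S.IA_anti htm (by omega : A ≤ 2 * A) (S.T_mem_IA htT (hx A))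
      have hK : I ≤ Ideal.span (S.T '' (I : Set O)) ⊔ Ideal.span {t} :=
        krull_T S.T S.T_mem S.res t htm htT1 hU I hTI
      have hspan : Ideal.span (S.T '' (I : Set O)) ≤ I := by
        rw [Ideal.span_le]
        rintro _ ⟨x, hx, rfl⟩
        exact hTI x hx
      have hNak : I ≤ Ideal.span (S.T '' (I : Set O)) := by
        refine Submodule.le_of_le_smul_of_le_jacobson_bot (I := maximalIdeal O)
          (IsNoetherian.noetherian I) (IsLocalRing.maximalIdeal_le_jacobson _) ?_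
        intro x hx
        obtain ⟨u, hu, v, hv, huv⟩ := Submodule.mem_sup.1 (hK hx)
        obtain ⟨c, rfl⟩ := Ideal.mem_span_singleton'.1 hv
        have hct : c * t ∈ I := by
          have : c * t = x - u := by rw [← huv]; ring
          rw [this]
          exact I.sub_mem hx (hspan hu)
        have hc : c ∈ I := by
          rw [hmem] at hct ⊢
          intro A
          obtain ⟨C, hC⟩ := hct (A + 1)
          refine ⟨C, ?_⟩
          filter_upwards [hC, hz', S.mul c t] with n h1 h2 h3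
          rw [h3, norm_mul, pow_succ, ← mul_assoc] at h1
          exact le_of_mul_le_mul_right h1 (norm_pos_iff.2 h2)
        rw [← huv, mul_comm c t]
        exact Submodule.add_mem_sup hu (Submodule.smul_mem_smul htm hc)
      have hIJ : I ≤ S.J := by
        intro x hx
        obtain ⟨C, hC⟩ := (hmem x).1 hx 1
        intro ε hε
        have h2 : ∀ᶠ n : ℕ in atTop, C < 2 ^ n :=
          (tendsto_pow_atTop_atTop_of_one_lt (by norm_num : (1 : ℝ) < 2)).eventually_gt_atTop C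
        filter_upwards [hC, hse (ε / 2) (by positivity), h2] with n h1 h3 h4
        rw [pow_one] at h1
        calc ‖S.e x n‖ ≤ C * ‖S.e t n‖ := h1
          _ ≤ 2 ^ n * ‖S.e t n‖ := by gcongr
          _ ≤ 2 ^ n * (ε / 2) ^ n := by gcongr
          _ = ε ^ n := by rw [← mul_pow]; congr 1; ring
      obtain ⟨C, hC⟩ := S.descent I hIJ 0 (hNak.trans le_sup_left) (by
        intro ε hε
        filter_upwards [S.zero', (tendsto_add_atTop_nat 1).eventually S.zero'] with n h1 h2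
        rw [h1, h2]; simp) a ((hmem a).2 hall)
      filter_upwards [hC, S.zero'] with n h1 h2
      rw [h2, norm_zero, mul_zero] at h1
      exact norm_le_zero_iff.1 h1
    · right
      push Not at hall
      obtain ⟨A, hA⟩ := hall
      have key : ∀ j, j ≤ A → (∀ᶠ n in atTop, S.e a n ≠ 0) ∨
          ∃ f ∈ S.IA t A, ∃ b, a = f + t ^ j * b := by
        intro j
        induction j with
        | zero => intro _; exact Or.inr ⟨0, Ideal.zero_mem _, a, by simp⟩
        | succ j ih =>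
          intro hj
          rcases ih (by omega) with h | ⟨f, hf, b, hab⟩
          · exact Or.inl h
          · rcases S.dich L₁ h₁ hΛ b with h | h
            · obtain ⟨u, hu, v, hv, huv⟩ := Submodule.mem_sup.1 (S.J_le_IA htm htT hU A h)
              obtain ⟨c, rfl⟩ := Ideal.mem_span_singleton'.1 hv
              refine Or.inr ⟨f + t ^ j * u, Ideal.add_mem _ hf (Ideal.mul_mem_left _ _ hu), c, ?_⟩
              rw [hab, ← huv]
              ring
            · left
              obtain ⟨C, hC⟩ := hf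
              obtain ⟨c, hc, hcb⟩ := h
              have hlim : ∀ᶠ n in atTop, ‖S.e t n‖ ≤ (c / 2) ^ n := hse _ (by positivity)
              have h2 : ∀ᶠ n : ℕ in atTop, |C| < 2 ^ n :=
                (tendsto_pow_atTop_atTop_of_one_lt (by norm_num : (1 : ℝ) < 2)).eventually_gt_atTop _
              have h1 : ∀ᶠ n in atTop, ‖S.e t n‖ < 1 :=
                (S.tendsto_zero htm).norm.eventually (gt_mem_nhds (by simp))
              filter_upwards [hC, hcb, hz', hlim, h2, h1, S.add f (t ^ j * b), S.mul (t ^ j) b,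
                S.pow t j] with n h3 h4 h5 h6 h7 h8 h9 h10 h11 h0
              have ht0 : 0 < ‖S.e t n‖ := norm_pos_iff.2 h5
              rw [hab, h9, h10, h11] at h0
              have h12 : ‖S.e t n‖ ^ j * ‖S.e b n‖ = ‖S.e f n‖ := by
                have : S.e f n = -(S.e t n ^ j * S.e b n) := by linear_combination h0
                rw [this, norm_neg, norm_mul, norm_pow]
              have h13 : ‖S.e f n‖ < ‖S.e t n‖ ^ j * c ^ n := by
                calc ‖S.e f n‖ ≤ C * ‖S.e t n‖ ^ A := h3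
                  _ ≤ |C| * ‖S.e t n‖ ^ (j + 1) := by
                    refine mul_le_mul (le_abs_self C) ?_ (by positivity) (abs_nonneg _)
                    exact pow_le_pow_of_le_one ht0.le h8.le hj
                  _ = ‖S.e t n‖ ^ j * (|C| * ‖S.e t n‖) := by ring
                  _ < ‖S.e t n‖ ^ j * (2 ^ n * ‖S.e t n‖) := by gcongr
                  _ ≤ ‖S.e t n‖ ^ j * (2 ^ n * (c / 2) ^ n) := by gcongr
                  _ = ‖S.e t n‖ ^ j * c ^ n := by
                    rw [← mul_pow]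
                    congr 2
                    ring
              have h14 : ‖S.e t n‖ ^ j * c ^ n ≤ ‖S.e t n‖ ^ j * ‖S.e b n‖ := by gcongr
              linarith
      rcases key A le_rfl with h | ⟨f, hf, b, hab⟩
      · exact h
      · exfalso
        apply hA
        rw [hab]
        refine Ideal.add_mem _ hf ?_
        obtain ⟨C, hC0, hC⟩ := S.bdd b
        refine ⟨C, ?_⟩
        filter_upwards [hC, S.mul (t ^ A) b, S.pow t A] with n h1 h2 h3
        rw [h2, h3, norm_mul, norm_pow, mul_comm]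
        gcongr

end

end Sys

end Pool.Agent.Helper52.AT
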