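import Mathlib

/-!
# Definitions for the theorem on attracting points (MP_295d38_ag)
-/

set_option autoImplicit false

namespace Pool.Agent.Helper52.AT

open Filter Topology MvPolynomial

/-- `x n` tends to `p` geometrically: suitable representatives do, for the usual topology -/
def GeomTendsto {N : ℕ} (x : ℕ → Projectivization ℂ (Fin (N + 1) → ℂ))
    (p : Projectivization ℂ (Fin (N + 1) → ℂ)) : Prop :=
  ∃ (v : ℕ → Fin (N + 1) → ℂ) (C ρ : ℝ), 0 < ρ ∧ ρ < 1 ∧
    ∀ n, v n ∈ (x n).submodule ∧ ‖v n - p.rep‖ ≤ C * ρ ^ n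

/-- `h` is in the affine cone over the Zariski tangent space at `p` of the closure of `X` -/
def TangentAt {N : ℕ} (X : Set (Projectivization ℂ (Fin (N + 1) → ℂ)))
    (p : Projectivization ℂ (Fin (N + 1) → ℂ)) (h : Fin (N + 1) → ℂ) : Prop :=
  ∀ E : MvPolynomial (Fin (N + 1)) ℂ, (∃ d : ℕ, E.IsHomogeneous d) →
    (∀ x ∈ X, eval x.rep E = 0) → ∑ a, h a * eval p.rep (pderiv a E) = 0

/-- the values of the forms `F i` at the vector `v` -/
noncomputable def val {N : ℕ} (F : Fin (N + 1) → MvPolynomial (Fin (N + 1)) ℂ)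
    (v : Fin (N + 1) → ℂ) : Fin (N + 1) → ℂ := fun i => eval v (F i)

/-- the differential of `v ↦ (F i v)_i` at `v`, applied to `h` -/
noncomputable def diff {N : ℕ} (F : Fin (N + 1) → MvPolynomial (Fin (N + 1)) ℂ)
    (v h : Fin (N + 1) → ℂ) : Fin (N + 1) → ℂ := fun i => ∑ a, h a * eval v (pderiv a (F i))

end Pool.Agent.Helper52.AT
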