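import Pool.Agent.Helper52.AT.Aff
import Pool.Agent.Helper52.AT.ProjDefs

/-!
# The theorem in projective space
-/

set_option autoImplicit false

namespace Pool.Agent.Helper52.AT

open Filter Topology IsLocalRing MvPolynomial

theorem eval_smul_hom {κ : Type*} [Fintype κ] {F : MvPolynomial κ ℂ} {d : ℕ}
    (hF : F.IsHomogeneous d) (c : ℂ) (v : κ → ℂ) : eval (c • v) F = c ^ d * eval v F := by
  rw [eval_eq', eval_eq', Finset.mul_sum]
  refine Finset.sum_congr rfl fun s hs => ?_
  have h1 : ∑ i, s i = d := by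
    have := hF (mem_support_iff.mp hs)
    rw [← this, Finsupp.weight_apply, Finsupp.sum_fintype _ _ (by simp)]
    simp
  have h2 : ∏ i, (c • v) i ^ s i = c ^ d * ∏ i, v i ^ s i := by
    simp only [Pi.smul_apply, smul_eq_mul, mul_pow, Finset.prod_mul_distrib,
      Finset.prod_pow_eq_pow_sum, h1]
  rw [h2]
  ring

theorem mem_submodule_iff {N : ℕ} (x : Projectivization ℂ (Fin (N + 1) → ℂ))
    (v : Fin (N + 1) → ℂ) : v ∈ x.submodule ↔ ∃ c : ℂ, c • x.rep = v := by
  rw [Projectivization.submodule_eq, Submodule.mem_span_singleton]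

theorem proj_main {N : ℕ} (X : Set (Projectivization ℂ (Fin (N + 1) → ℂ)))
    (x : ℕ → Projectivization ℂ (Fin (N + 1) → ℂ)) (hx : ∀ᶠ n in atTop, x n ∈ X)
    (p : Projectivization ℂ (Fin (N + 1) → ℂ)) (hgeo : GeomTendsto x p)
    {d : ℕ} {F : Fin (N + 1) → MvPolynomial (Fin (N + 1)) ℂ} {c : ℂ}
    (hF : ∀ i, (F i).IsHomogeneous d) (hc : c ≠ 0) (hFp : val F p.rep = c • p.rep)
    (hFx : ∀ᶠ n in atTop, val F (x n).rep ∈ (x (n + 1)).submodule)
    {e a b : ℕ} {G U W : MvPolynomial (Fin (N + 1)) ℂ} (hG : G.IsHomogeneous e)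
    (hU : U.IsHomogeneous a) (hW : W.IsHomogeneous b) (hdeg : b + d * e = a + 2 * e)
    (hGp : eval p.rep G = 0) (hWp : eval p.rep W ≠ 0)
    (hGx : ∀ᶠ n in atTop, eval (x n).rep W * eval (val F (x n).rep) G =
      eval (x n).rep U * eval (x n).rep G ^ 2)
    (hunr : ∀ h, TangentAt X p h → ∑ a, h a * eval p.rep (pderiv a G) = 0 →
      diff F p.rep h ∈ p.submodule → h ∈ p.submodule)
    {M : ℕ} (hM : 1 ≤ M)
    (hmult : ∀ μ ∈ Submonoid.closure {z : ℂ | ∃ h, TangentAt X p h ∧ h ∉ p.submodule ∧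
        diff F p.rep h - (c * z) • h ∈ p.submodule},
      ∀ ν ∈ Submonoid.closure {z : ℂ | ∃ h, TangentAt X p h ∧ h ∉ p.submodule ∧
        diff F p.rep h - (c * z) • h ∈ p.submodule},
      ‖μ‖ = ‖ν‖ → μ ^ M = ν ^ M)
    {E : MvPolynomial (Fin (N + 1)) ℂ} {k : ℕ} (hE : E.IsHomogeneous k) (r : ℕ) :
    (∀ᶠ n in atTop, eval (x (M * n + r)).rep E = 0) ∨
      (∀ᶠ n in atTop, eval (x (M * n + r)).rep E ≠ 0) := by
  classical
  obtain ⟨v, C₁, ρ, hρ0, hρ1, hv⟩ := hgeo
  -- the coordinate
  obtain ⟨i₀, hi₀⟩ : ∃ i, p.rep i ≠ 0 := by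
    by_contra hcon
    push Not at hcon
    exact p.rep_nonzero (funext hcon)
  set π : ℂ := p.rep i₀ with hπ
  set q : Fin (N + 1) → ℂ := π⁻¹ • p.rep with hq
  have hqi : q i₀ = 1 := by rw [hq, Pi.smul_apply, smul_eq_mul, ← hπ, inv_mul_cancel₀ hi₀]
  have hpq : p.rep = π • q := by rw [hq, smul_smul, mul_inv_cancel₀ hi₀, one_smul]
  have hq0 : q ≠ 0 := fun h => by rw [h] at hqi; simp at hqi
  have hmemp : ∀ w, w ∈ p.submodule ↔ ∃ z : ℂ, z • q = w := by
    intro w
    rw [mem_submodule_iff]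
    constructor
    · rintro ⟨z, rfl⟩
      exact ⟨z * π, by rw [hq, smul_smul, mul_assoc, mul_inv_cancel₀ hi₀, mul_one]⟩
    · rintro ⟨z, rfl⟩
      exact ⟨z * π⁻¹, by rw [hq, smul_smul]⟩
  -- convergence of the representatives
  have hCρ : Tendsto (fun n => C₁ * ρ ^ n) atTop (𝓝 0) := by
    simpa using (tendsto_pow_atTop_nhds_zero_of_lt_one hρ0.le hρ1).const_mul C₁
  have hvt : Tendsto v atTop (𝓝 p.rep) := by
    rw [tendsto_iff_norm_sub_tendsto_zero]
    exact squeeze_zero (fun n => norm_nonneg _) (fun n => (hv n).2) hCρ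
  have hvi : Tendsto (fun n => v n i₀) atTop (𝓝 π) := (continuous_apply i₀).continuousAt.tendsto.comp hvt
  have hvi0 : ∀ᶠ n in atTop, ‖π‖ / 2 < ‖v n i₀‖ :=
    hvi.norm.eventually (lt_mem_nhds (by have := norm_pos_iff.2 hi₀; linarith))
  -- normalised representatives
  set u : ℕ → Fin (N + 1) → ℂ := fun n => (v n i₀)⁻¹ • v n with hu
  have hui : ∀ᶠ n in atTop, v n i₀ ≠ 0 ∧ u n i₀ = 1 := by
    filter_upwards [hvi0] with n hn
    have h1 : v n i₀ ≠ 0 := by
      intro h
      rw [h, norm_zero] at hn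
      have := norm_nonneg π
      linarith
    exact ⟨h1, by rw [hu]; simp [h1]⟩
  have hurep : ∀ᶠ n in atTop, ∃ z : ℂ, z ≠ 0 ∧ u n = z • (x n).rep := by
    filter_upwards [hui] with n hn
    obtain ⟨z, hz⟩ := (mem_submodule_iff _ _).1 (hv n).1
    have hz0 : z ≠ 0 := by
      intro h
      apply hn.1
      rw [← hz, h, zero_smul, Pi.zero_apply]
    exact ⟨(v n i₀)⁻¹ * z, mul_ne_zero (inv_ne_zero hn.1) hz0, by rw [hu]; simp only; rw [← hz, smul_smul, hz]⟩
  -- zero sets of forms
  have hform : ∀ᶠ n in atTop, ∀ (E : MvPolynomial (Fin (N + 1)) ℂ) (k : ℕ), E.IsHomogeneous k →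
      (eval (u n) E = 0 ↔ eval (x n).rep E = 0) := by
    filter_upwards [hurep] with n hn E k hE
    obtain ⟨z, hz, h⟩ := hn
    rw [h, eval_smul_hom hE]
    simp [hz]
  set y : ℕ → Fin (N + 1) → ℂ := fun n => u n - q with hy
  have hyq : ∀ n, y n + q = u n := fun n => by rw [hy]; simp
  -- smallness
  have hsmall : ∃ C : ℝ, ∀ᶠ n in atTop, ∀ i, ‖y n i‖ ≤ C * ρ ^ n := by
    have hπ0 := norm_pos_iff.2 hi₀
    refine ⟨2 / ‖π‖ * (|C₁| + |C₁| * ‖q‖), ?_⟩
    filter_upwards [hvi0, hui] with n hn hn' i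
    have h1 : y n i = (v n i₀)⁻¹ * ((v n i - p.rep i) - (v n i₀ - π) * q i) := by
      rw [hy, hu]
      simp only [Pi.sub_apply, Pi.smul_apply, smul_eq_mul]
      have h2 : p.rep i = π * q i := by
        conv_lhs => rw [hpq]
        rw [Pi.smul_apply, smul_eq_mul]
      rw [h2]
      have h3 := hn'.1
      field_simp
      ring
    have h2 : ‖v n i - p.rep i‖ ≤ |C₁| * ρ ^ n := by
      calc ‖v n i - p.rep i‖ = ‖(v n - p.rep) i‖ := rfl
        _ ≤ ‖v n - p.rep‖ := norm_le_pi_norm _ i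
        _ ≤ C₁ * ρ ^ n := (hv n).2
        _ ≤ |C₁| * ρ ^ n := by gcongr; exact le_abs_self C₁
    have h3 : ‖v n i₀ - π‖ ≤ |C₁| * ρ ^ n := by
      calc ‖v n i₀ - π‖ = ‖(v n - p.rep) i₀‖ := rfl
        _ ≤ ‖v n - p.rep‖ := norm_le_pi_norm _ i₀
        _ ≤ C₁ * ρ ^ n := (hv n).2
        _ ≤ |C₁| * ρ ^ n := by gcongr; exact le_abs_self C₁
    have h4 : ‖(v n i₀)⁻¹‖ ≤ 2 / ‖π‖ := by
      rw [norm_inv, inv_eq_one_div, div_le_div_iff₀ (by linarith) hπ0]
      linarith
    rw [h1, norm_mul, mul_assoc]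
    refine mul_le_mul h4 ?_ (norm_nonneg _) (by positivity)
    refine (norm_sub_le _ _).trans ?_
    rw [norm_mul, add_mul]
    refine add_le_add h2 ?_
    calc ‖v n i₀ - π‖ * ‖q i‖ ≤ (|C₁| * ρ ^ n) * ‖q‖ :=
          mul_le_mul h3 (norm_le_pi_norm _ i) (norm_nonneg _) (by positivity)
      _ = |C₁| * ‖q‖ * ρ ^ n := by ring
  -- the forms at `q`
  obtain ⟨c', hc'0, hFq, hcc'⟩ : ∃ c' : ℂ, c' ≠ 0 ∧ val F q = c' • q ∧ π ^ d * c' = c * π := by
    refine ⟨π⁻¹ ^ d * (c * π), ?_, ?_, ?_⟩
    · exact mul_ne_zero (pow_ne_zero _ (inv_ne_zero hi₀)) (mul_ne_zero hc hi₀)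
    · funext i
      have h1 : eval q (F i) = π⁻¹ ^ d * eval p.rep (F i) := by
        rw [hq]
        exact eval_smul_hom (hF i) _ _
      have h2 : eval p.rep (F i) = c * (π * q i) := by
        have := congrFun hFp i
        rw [hpq, Pi.smul_apply, Pi.smul_apply, smul_eq_mul, smul_eq_mul] at this
        rw [← this, ← hpq]
        rfl
      show eval q (F i) = _
      rw [h1, h2, Pi.smul_apply, smul_eq_mul]
      ring
    · rw [← mul_assoc, ← mul_pow, mul_inv_cancel₀ hi₀, one_pow, one_mul]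
  -- the affine map
  set P : Fin (N + 1) → MvPolynomial (Fin (N + 1)) ℂ :=
    fun i => tr q (F i) - C (q i) * tr q (F i₀) with hPdef
  set Q : MvPolynomial (Fin (N + 1)) ℂ := tr q (F i₀) with hQdef
  have hFqi : ∀ i, eval q (F i) = c' * q i := fun i => by
    have := congrFun hFq i
    simpa [val] using this
  have hQ0 : eval 0 Q = c' := by
    rw [hQdef, eval_tr, zero_add, hFqi, hqi, mul_one]
  have hP0 : ∀ i, eval 0 (P i) = 0 := by
    intro i
    simp only [hPdef, map_sub, map_mul, eval_C, hQ0, eval_tr, zero_add, hFqi]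
    ring
  have hFu : ∀ᶠ n in atTop, val F (u n) ∈ (x (n + 1)).submodule := by
    filter_upwards [hurep, hFx] with n h1 h2
    obtain ⟨z, _, h⟩ := h1
    have h3 : val F (u n) = z ^ d • val F (x n).rep := by
      funext i
      simp only [val, Pi.smul_apply, smul_eq_mul]
      rw [h, eval_smul_hom (hF i)]
    rw [h3]
    exact Submodule.smul_mem _ _ h2
  have hFu0 : ∀ᶠ n in atTop, eval (u n) (F i₀) ≠ 0 := by
    have hcont : Continuous fun w : Fin (N + 1) → ℂ => eval w (F i₀) := MvPolynomial.continuous_eval _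
    have hut : Tendsto u atTop (𝓝 q) := by
      have h1 : Tendsto (fun n => (v n i₀)⁻¹) atTop (𝓝 π⁻¹) := hvi.inv₀ hi₀
      exact h1.smul hvt
    have h1 : Tendsto (fun n => eval (u n) (F i₀)) atTop (𝓝 (eval q (F i₀))) :=
      (hcont.tendsto q).comp hut
    have h2 : eval q (F i₀) ≠ 0 := by rw [hFqi, hqi, mul_one]; exact hc'0
    exact h1.eventually_ne h2
  -- the next point
  have hnext : ∀ᶠ n in atTop, ∀ i, eval (u n) (F i₀) * u (n + 1) i = eval (u n) (F i) := by
    filter_upwards [hFu, hFu0, (tendsto_add_atTop_nat 1).eventually hurep,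
      (tendsto_add_atTop_nat 1).eventually hui] with n h1 h2 h3 h4 i
    obtain ⟨z, hz, h5⟩ := h3
    obtain ⟨w, hw⟩ := (mem_submodule_iff _ _).1 h1
    have h6 : ∀ j, eval (u n) (F j) = w * z⁻¹ * u (n + 1) j := by
      intro j
      have : eval (u n) (F j) = (w • (x (n + 1)).rep) j := (congrFun hw j).symm
      rw [this, h5]
      simp only [Pi.smul_apply, smul_eq_mul]
      field_simp
    have h7 : eval (u n) (F i₀) = w * z⁻¹ := by rw [h6 i₀, h4.2, mul_one]
    rw [h7, h6 i]
  have hstep : ∀ᶠ n in atTop, ∀ i, eval (y n) Q * y (n + 1) i = eval (y n) (P i) := by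
    filter_upwards [hnext] with n h1 i
    simp only [hPdef, hQdef, map_sub, map_mul, eval_C, eval_tr, hyq]
    rw [← h1 i, hy]
    simp only [Pi.sub_apply]
    ring
  -- the hypersurface
  have htt : ∀ᶠ n in atTop, eval (y n) (tr q W * Q ^ e) * eval (y (n + 1)) (tr q G) =
      eval (y n) (tr q U) * eval (y n) (tr q G) ^ 2 := by
    filter_upwards [hnext, hurep, hGx] with n h1 h2 h3
    obtain ⟨z, hz, h4⟩ := h2
    simp only [map_mul, map_pow, hQdef, eval_tr, hyq]
    have h5 : eval (u n) (F i₀) ^ e * eval (u (n + 1)) G = eval (val F (u n)) G := by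
      rw [← eval_smul_hom hG]
      congr 2
      funext i
      rw [Pi.smul_apply, smul_eq_mul, h1 i]
      rfl
    have h6 : val F (u n) = z ^ d • val F (x n).rep := by
      funext i
      simp only [val, Pi.smul_apply, smul_eq_mul]
      rw [h4, eval_smul_hom (hF i)]
    rw [mul_assoc, h5, h6, eval_smul_hom hG, h4, eval_smul_hom hW, eval_smul_hom hU,
      eval_smul_hom hG]
    have h7 : z ^ b * (z ^ d) ^ e = z ^ a * (z ^ e) ^ 2 := by
      rw [← pow_mul, ← pow_mul, ← pow_add, ← pow_add]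
      congr 1
      rw [hdeg]
      ring
    calc z ^ b * eval (x n).rep W * ((z ^ d) ^ e * eval (val F (x n).rep) G)
        = (z ^ b * (z ^ d) ^ e) * (eval (x n).rep W * eval (val F (x n).rep) G) := by ring
      _ = (z ^ a * (z ^ e) ^ 2) * (eval (x n).rep U * eval (x n).rep G ^ 2) := by rw [h7, h3]
      _ = _ := by ring
  have ht0 : eval 0 (tr q G) = 0 := by
    rw [eval_tr, zero_add, hq, eval_smul_hom hG, hGp, mul_zero]
  have hW0 : eval 0 (tr q W * Q ^ e) ≠ 0 := by
    rw [map_mul, map_pow, hQ0]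
    refine mul_ne_zero ?_ (pow_ne_zero _ hc'0)
    rw [eval_tr, zero_add, hq, eval_smul_hom hW]
    exact mul_ne_zero (pow_ne_zero _ (inv_ne_zero hi₀)) hWp
  -- tangent vectors
  have htan : ∀ h ∈ Tan y, h i₀ = 0 ∧ TangentAt X p h := by
    intro h hh
    constructor
    · have h1 := hh (MvPolynomial.X i₀) (by
        filter_upwards [hui] with n hn
        rw [eval_X, hy]
        simp only [Pi.sub_apply]
        rw [hn.2, hqi, sub_self])
      rw [Finset.sum_eq_single i₀] at h1
      · simpa using h1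
      · intro j _ hj
        simp [pderiv_X, Pi.single_eq_of_ne hj.symm]
      · intro h2
        exact absurd (Finset.mem_univ _) h2
    · rintro E ⟨k, hE⟩ hEX
      have h1 := hh (tr q E) (by
        filter_upwards [hx, hform] with n h2 h3
        rw [eval_tr, hyq, (h3 E k hE)]
        exact hEX _ h2)
      have h4 : ∀ j, eval p.rep (pderiv j E) = π ^ (k - 1) * eval 0 (pderiv j (tr q E)) := by
        intro j
        rw [pderiv_tr, eval_tr, zero_add]
        conv_lhs => rw [hpq]
        exact eval_smul_hom hE.pderiv _ _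
      calc ∑ j, h j * eval p.rep (pderiv j E)
          = π ^ (k - 1) * ∑ j, h j * eval 0 (pderiv j (tr q E)) := by
            rw [Finset.mul_sum]
            refine Finset.sum_congr rfl fun j _ => ?_
            rw [h4]
            ring
        _ = 0 := by rw [h1, mul_zero]
  -- the differential
  have hdiff : ∀ h, diff F p.rep h = π ^ (d - 1) • diff F q h := by
    intro h
    funext i
    simp only [diff, Pi.smul_apply, smul_eq_mul]
    rw [Finset.mul_sum]
    refine Finset.sum_congr rfl fun j _ => ?_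
    have : eval p.rep (pderiv j (F i)) = π ^ (d - 1) * eval q (pderiv j (F i)) := by
      conv_lhs => rw [hpq]
      exact eval_smul_hom (hF i).pderiv _ _
    rw [this]
    ring
  have hdP : ∀ h i, ∑ j, h j * eval 0 (pderiv j (P i)) = diff F q h i - q i * diff F q h i₀ := by
    intro h i
    simp only [diff, hPdef]
    rw [Finset.mul_sum, ← Finset.sum_sub_distrib]
    refine Finset.sum_congr rfl fun j _ => ?_
    rw [map_sub, Derivation.leibniz, pderiv_C, smul_zero, add_zero, smul_eq_mul, map_sub, map_mul,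
      eval_C, pderiv_tr, pderiv_tr, eval_tr, eval_tr, zero_add]
    ring
  -- the affine theorem
  have hunr' : ∀ h ∈ Tan y, ∑ j, h j * eval 0 (pderiv j (tr q G)) = 0 →
      (∀ i, ∑ j, h j * eval 0 (pderiv j (P i)) = 0) → h = 0 := by
    intro h hh h1 h2
    obtain ⟨h3, h4⟩ := htan h hh
    have h5 : ∑ j, h j * eval p.rep (pderiv j G) = 0 := by
      have h6 : ∀ j, eval p.rep (pderiv j G) = π ^ (e - 1) * eval 0 (pderiv j (tr q G)) := by
        intro j
        rw [pderiv_tr, eval_tr, zero_add]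
        conv_lhs => rw [hpq]
        exact eval_smul_hom hG.pderiv _ _
      calc ∑ j, h j * eval p.rep (pderiv j G)
          = π ^ (e - 1) * ∑ j, h j * eval 0 (pderiv j (tr q G)) := by
            rw [Finset.mul_sum]
            refine Finset.sum_congr rfl fun j _ => ?_
            rw [h6]
            ring
        _ = 0 := by rw [h1, mul_zero]
    have h6 : diff F p.rep h ∈ p.submodule := by
      rw [hdiff]
      refine Submodule.smul_mem _ _ ((hmemp _).2 ⟨diff F q h i₀, ?_⟩)
      funext i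
      have h7 := h2 i
      rw [hdP] at h7
      rw [Pi.smul_apply, smul_eq_mul]
      linear_combination -h7
    obtain ⟨z, hz⟩ := (hmemp _).1 (hunr h h4 h5 h6)
    have h7 : z = 0 := by
      have := congrFun hz i₀
      rw [Pi.smul_apply, hqi, smul_eq_mul, mul_one, h3] at this
      exact this
    rw [← hz, h7, zero_smul]
  have hset : {z : ℂ | ∃ h ∈ Tan y, h ≠ 0 ∧
        ∀ i, ∑ j, h j * eval 0 (pderiv j (P i)) = z * eval 0 Q * h i} ⊆
      {z : ℂ | ∃ h, TangentAt X p h ∧ h ∉ p.submodule ∧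
        diff F p.rep h - (c * z) • h ∈ p.submodule} := by
    rintro z ⟨h, hh, h0, h1⟩
    obtain ⟨h3, h4⟩ := htan h hh
    refine ⟨h, h4, ?_, ?_⟩
    · intro h5
      obtain ⟨w, hw⟩ := (hmemp _).1 h5
      apply h0
      have h7 : w = 0 := by
        have := congrFun hw i₀
        rw [Pi.smul_apply, hqi, smul_eq_mul, mul_one, h3] at this
        exact this
      rw [← hw, h7, zero_smul]
    · have h5 : diff F q h = (z * c') • h + (diff F q h i₀) • q := by
        funext i
        have h6 := h1 i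
        rw [hdP, hQ0] at h6
        rw [Pi.add_apply, Pi.smul_apply, Pi.smul_apply, smul_eq_mul, smul_eq_mul]
        linear_combination h6
      rcases Nat.eq_zero_or_pos d with hd | hd
      · -- constant forms
        have h6 : ∀ w, diff F w h = 0 := by
          intro w
          funext i
          simp only [diff, Pi.zero_apply]
          refine Finset.sum_eq_zero fun j _ => ?_
          have h7 : (F i).totalDegree = 0 := by
            have := (hF i).totalDegree_le
            omega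
          rw [totalDegree_eq_zero_iff_eq_C] at h7
          rw [h7, pderiv_C, map_zero, mul_zero]
        have h7 : z = 0 := by
          rw [h6 q, Pi.zero_apply, zero_smul, add_zero] at h5
          by_contra hz
          exact (smul_ne_zero (mul_ne_zero hz hc'0) h0) h5.symm
        rw [h6, h7, mul_zero, zero_smul, sub_zero]
        exact Submodule.zero_mem _
      · have h6 : π ^ (d - 1) * c' = c := by
          obtain ⟨d', rfl⟩ := Nat.exists_eq_add_of_lt hd
          simp only [zero_add, Nat.add_sub_cancel] at hcc' ⊢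
          rw [pow_succ] at hcc'
          apply mul_right_cancel₀ hi₀
          linear_combination hcc'
        rw [hdiff, h5, smul_add, smul_smul, smul_smul]
        have h7 : π ^ (d - 1) * (z * c') = c * z := by rw [← h6]; ring
        rw [h7, add_sub_cancel_left]
        exact (hmemp _).2 ⟨_, rfl⟩
  have hmult' := fun μ (hμ : μ ∈ Submonoid.closure {z : ℂ | ∃ h ∈ Tan y, h ≠ 0 ∧
        ∀ i, ∑ j, h j * eval 0 (pderiv j (P i)) = z * eval 0 Q * h i}) ν
      (hν : ν ∈ Submonoid.closure {z : ℂ | ∃ h ∈ Tan y, h ≠ 0 ∧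
        ∀ i, ∑ j, h j * eval 0 (pderiv j (P i)) = z * eval 0 Q * h i}) =>
    hmult μ (Submonoid.closure_mono hset hμ) ν (Submonoid.closure_mono hset hν)
  have hres := affine_main y ρ hρ0 hρ1 hsmall P Q (by rw [hQ0]; exact hc'0) hP0 hstep (tr q G)
    (tr q U) (tr q W * Q ^ e) ht0 hW0 htt hunr' hM hmult' (tr q E) r
  have hcl := (tendsto_class hM r).eventually hform
  rcases hres with h | h
  · left
    filter_upwards [h, hcl] with n h1 h2
    rw [eval_tr, hyq] at h1
    exact (h2 E k hE).1 h1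
  · right
    filter_upwards [h, hcl] with n h1 h2
    rw [eval_tr, hyq] at h1
    exact fun h3 => h1 ((h2 E k hE).2 h3)

end Pool.Agent.Helper52.AT
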