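import Pool.Agent.Helper52.AT.Defs
import Pool.Agent.Helper19.AT.SEQa
import Pool.Agent.Helper14.AT.SEQb
import Pool.Agent.Helper46.AT.SEQc
import Pool.Agent.Helper67.AT.SEQd

set_option autoImplicit false

namespace Pool.Agent.Helper52.AT

open Filter Topology

theorem BO.mono_exp {δ δ' : ℝ} (hδ : 0 < δ) (h : δ ≤ δ') {s : ℕ → ℂ} (hs : BO δ s) : BO δ' s := by
  obtain ⟨C, hC⟩ := hs
  refine ⟨|C|, ?_⟩
  filter_upwards [hC] with n hn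
  refine hn.trans ?_
  calc C * δ ^ n ≤ |C| * δ ^ n := by
        gcongr
        exact le_abs_self C
    _ ≤ |C| * δ' ^ n := by gcongr

/-- Sequences killed by `∏ (σ - μ)` up to `O(δ ^ n)`: the sequence is small or has a leading term. -/
theorem reg_or_small {δ : ℝ} (hδ : 0 < δ) {Λ : Set ℂ}
    (hΛ : ∀ μ ∈ Λ, ∀ ν ∈ Λ, ‖μ‖ = ‖ν‖ → μ = ν) :
    ∀ (L : List ℂ), (∀ μ ∈ L, μ ∈ Λ) → ∀ s : ℕ → ℂ, BO δ (appS L s) →
      (∀ δ' > δ, BO δ' s) ∨ ∃ μ ∈ Λ, ∃ j c, δ < ‖μ‖ ∧ Reg μ j c s := by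
  intro L
  induction L with
  | nil =>
    intro _ s h
    exact Or.inl fun δ' hδ' => BO.mono_exp hδ hδ'.le h
  | cons μ₀ L ih =>
    intro hL s h
    have h0 : μ₀ ∈ Λ := hL μ₀ (List.mem_cons_self)
    have hL' : ∀ μ ∈ L, μ ∈ Λ := fun μ hμ => hL μ (List.mem_cons_of_mem _ hμ)
    set s' : ℕ → ℂ := fun n => s (n + 1) - μ₀ * s n with hs'
    have hrec : ∀ n, s (n + 1) - μ₀ * s n = s' n := fun n => rfl
    rcases ih hL' s' h with h1 | ⟨μ, hμ, j, c, hδμ, hr⟩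
    · rcases le_or_gt ‖μ₀‖ δ with h2 | h2
      · exact Or.inl (neg_le hδ hrec h1 h2)
      · rcases neg_gt hδ hrec h1 h2 with ⟨c', h3⟩ | h3
        · exact Or.inr ⟨μ₀, h0, 0, c', h2, h3⟩
        · exact Or.inl h3
    · rcases lt_trichotomy ‖μ₀‖ ‖μ‖ with h2 | h2 | h2
      · exact Or.inr ⟨μ, hμ, j, _, hδμ, reg_lt hrec hr h2⟩
      · obtain rfl : μ₀ = μ := hΛ _ h0 _ hμ h2
        exact Or.inr ⟨μ₀, hμ, j + 1, _, hδμ, reg_eq hrec hr⟩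
      · rcases reg_gt hrec hr h2 with ⟨c', h3⟩ | h3
        · exact Or.inr ⟨μ₀, h0, 0, c', hδμ.trans h2, h3⟩
        · exact Or.inr ⟨μ, hμ, j, _, hδμ, h3⟩

theorem Reg.lb {μ c : ℂ} {j : ℕ} {s : ℕ → ℂ} (h : Reg μ j c s) : LB s := by
  obtain ⟨hμ, hc, ht⟩ := h
  have hμ' : 0 < ‖μ‖ := norm_pos_iff.2 hμ
  have hc' : 0 < ‖c‖ := norm_pos_iff.2 hc
  refine ⟨‖μ‖ / 2, by positivity, ?_⟩
  have h1 : ∀ᶠ n in atTop, ‖c‖ / 2 < ‖s n / ((n.choose j : ℂ) * μ ^ n)‖ :=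
    ht.norm.eventually (lt_mem_nhds (by linarith))
  have h2 : ∀ᶠ n : ℕ in atTop, ((1 : ℝ) / 2) ^ n < ‖c‖ / 2 := by
    have := tendsto_pow_atTop_nhds_zero_of_lt_one (by norm_num : (0 : ℝ) ≤ 1 / 2) (by norm_num)
    exact this.eventually (gt_mem_nhds (by positivity))
  filter_upwards [h1, h2, eventually_ge_atTop j] with n h3 h4 h5
  have h6 : (1 : ℝ) ≤ (n.choose j : ℝ) := by exact_mod_cast Nat.choose_pos h5
  rw [norm_div, norm_mul, norm_pow, Complex.norm_natCast] at h3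
  have h7 : 0 < (n.choose j : ℝ) * ‖μ‖ ^ n := by positivity
  rw [lt_div_iff₀ h7] at h3
  calc (‖μ‖ / 2) ^ n = (1 / 2) ^ n * ‖μ‖ ^ n := by rw [← mul_pow]; congr 1; ring
    _ ≤ ‖c‖ / 2 * ‖μ‖ ^ n := by gcongr
    _ ≤ ‖c‖ / 2 * ((n.choose j : ℝ) * ‖μ‖ ^ n) := by
        gcongr
        exact le_mul_of_one_le_left (by positivity) h6
    _ ≤ ‖s n‖ := h3.le

/-- The dichotomy for sequences which are almost linear recurrences of all orders of precision. -/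
theorem seq_dichotomy {ρ : ℝ} (hρ0 : 0 < ρ) (hρ1 : ρ < 1) {Λ : Set ℂ}
    (hΛ : ∀ μ ∈ Λ, ∀ ν ∈ Λ, ‖μ‖ = ‖ν‖ → μ = ν) (s : ℕ → ℂ)
    (h : ∀ k : ℕ, ∃ L : List ℂ, (∀ μ ∈ L, μ ∈ Λ) ∧ BO (ρ ^ k) (appS L s)) : SE s ∨ LB s := by
  by_cases hall : ∀ k : ℕ, ∀ δ' > ρ ^ k, BO δ' s
  · left
    intro ε hε
    obtain ⟨k, hk⟩ := exists_pow_lt_of_lt_one (half_pos hε) hρ1
    obtain ⟨C, hC⟩ := hall k (ε / 2) hk
    have h2 : ∀ᶠ n : ℕ in atTop, C < 2 ^ n :=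
      (tendsto_pow_atTop_atTop_of_one_lt (by norm_num : (1 : ℝ) < 2)).eventually_gt_atTop C
    filter_upwards [hC, h2] with n h3 h4
    refine h3.trans ?_
    calc C * (ε / 2) ^ n ≤ 2 ^ n * (ε / 2) ^ n := by gcongr
      _ = ε ^ n := by rw [← mul_pow]; congr 1; ring
  · right
    push Not at hall
    obtain ⟨k, δ', hδ', hno⟩ := hall
    obtain ⟨L, hL, hB⟩ := h k
    rcases reg_or_small (pow_pos hρ0 k) hΛ L hL s hB with h1 | ⟨μ, _, j, c, _, hr⟩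
    · exact absurd (h1 δ' hδ') hno
    · exact hr.lb

end Pool.Agent.Helper52.AT
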